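import Mathlib

open MeasureTheory Finset

namespace Pool.Agent.Results.MP_261efc_co.AveragedMixing

open scoped Classical in
/-- The adjacency matrix of the path on `n` vertices (vertices `Fin n`), with complex entries. -/
noncomputable def adj (n : ℕ) : Matrix (Fin n) (Fin n) ℂ := (SimpleGraph.pathGraph n).adjMatrix ℂ

/-- The continuous-time quantum walk `U(t) = exp(i t A)`. -/
noncomputable def walk (n : ℕ) (t : ℝ) : Matrix (Fin n) (Fin n) ℂ :=
  NormedSpace.exp ((Complex.I * (t : ℂ)) • adj n)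

/-- The mixing matrix `M(t)_{ab} = |U(t)_{ab}|²`. -/
noncomputable def mixing (n : ℕ) (t : ℝ) : Matrix (Fin n) (Fin n) ℝ :=
  Matrix.of fun a b => ‖walk n t a b‖ ^ 2

/-- A probability density on the real line. -/
structure IsDensity (f : ℝ → ℝ) : Prop where
  meas : AEMeasurable f
  nonneg : ∀ s, 0 ≤ f s
  int : ∫ s, f s = 1

/-- The averaged mixing matrix. -/
noncomputable def avg (n : ℕ) (f : ℝ → ℝ) : Matrix (Fin n) (Fin n) ℝ :=
  Matrix.of fun a b => ∫ s, f s * mixing n s a b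

/-! ### Trigonometric sums -/

/-- `h = π/N`. -/
noncomputable def h (N : ℕ) : ℝ := Real.pi / N

lemma cos_sum (N : ℕ) (hN : 0 < N) (m : ℤ) :
    ∑ a ∈ range N, Real.cos (m * (a * h N)) =
      if (2 * (N : ℤ)) ∣ m then (N : ℝ) else if Odd m then 1 else 0 := by
  have hN' : (N : ℝ) ≠ 0 := by positivity
  split_ifs with h1 h2
  · obtain ⟨c, rfl⟩ := h1
    have : ∀ a ∈ range N, Real.cos (((2 * (N : ℤ) * c : ℤ) : ℝ) * (a * h N)) = 1 := by
      intro a _
      have : ((2 * (N : ℤ) * c : ℤ) : ℝ) * (a * h N) = ((c * a : ℤ) : ℝ) * (2 * Real.pi) := by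
        unfold h; push_cast; field_simp
      rw [this, Real.cos_int_mul_two_pi]
    rw [sum_congr rfl this]; simp
  all_goals
    have hs : Real.sin (m * h N / 2) ≠ 0 := by
      intro h0
      rw [Real.sin_eq_zero_iff] at h0
      obtain ⟨c, hc⟩ := h0
      apply h1
      refine ⟨c, ?_⟩
      have hpi := Real.pi_ne_zero
      unfold h at hc
      have : (m : ℝ) = 2 * N * c := by
        field_simp at hc
        linarith
      exact_mod_cast this
    have tel : ∀ K : ℕ, 2 * Real.sin (m * h N / 2) * ∑ a ∈ range K, Real.cos (m * (a * h N)) =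
        Real.sin (m * h N * (K - 1 / 2)) + Real.sin (m * h N / 2) := by
      intro K
      induction K with
      | zero =>
        rw [show (m : ℝ) * h N * (((0 : ℕ) : ℝ) - 1 / 2) = -(m * h N / 2) by push_cast; ring,
          Real.sin_neg]; simp
      | succ K ih =>
        rw [sum_range_succ, mul_add, ih]
        push_cast
        rw [show (m : ℝ) * h N * (K + 1 - 1 / 2) = m * (K * h N) + m * h N / 2 by ring,
          show (m : ℝ) * h N * (K - 1 / 2) = m * (K * h N) - m * h N / 2 by ring,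
          Real.sin_add, Real.sin_sub]
        ring
    have t := tel N
    rw [show (m : ℝ) * h N * (N - 1 / 2) = m * Real.pi - m * h N / 2 by
      unfold h; field_simp, Real.sin_sub, Real.sin_int_mul_pi] at t
  · have hc : Real.cos (m * Real.pi) = -1 := by
      obtain ⟨c, rfl⟩ := h2
      push_cast
      rw [show (2 * (c : ℝ) + 1) * Real.pi = c * (2 * Real.pi) + Real.pi by ring,
        Real.cos_int_mul_two_pi_add_pi]
    rw [hc] at t
    have : Real.sin (m * h N / 2) * (∑ a ∈ range N, Real.cos (m * (a * h N)) - 1) = 0 := by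
      linarith
    rcases mul_eq_zero.1 this with h3 | h3
    · exact absurd h3 hs
    · linarith
  · have hc : Real.cos (m * Real.pi) = 1 := by
      obtain ⟨c, rfl⟩ := (Int.not_odd_iff_even.1 h2)
      push_cast
      rw [show ((c : ℝ) + c) * Real.pi = c * (2 * Real.pi) by ring,
        Real.cos_int_mul_two_pi]
    rw [hc] at t
    have : Real.sin (m * h N / 2) * (∑ a ∈ range N, Real.cos (m * (a * h N))) = 0 := by
      linarith
    rcases mul_eq_zero.1 this with h3 | h3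
    · exact absurd h3 hs
    · exact h3

/-- indicator of `2N ∣ m` -/
noncomputable def dl (N : ℕ) (m : ℤ) : ℝ := if (2 * (N : ℤ)) ∣ m then 1 else 0

/-- `∑ a, cos(j a h) 2 sin(r a h) sin (q a h)` -/
lemma S_formula (N : ℕ) (hN : 0 < N) (j r q : ℤ) :
    ∑ a ∈ range N, Real.cos (j * (a * h N)) *
        (2 / N * (Real.sin (r * (a * h N)) * Real.sin (q * (a * h N)))) =
      (dl N (j + r - q) + dl N (j - r + q) - dl N (j + r + q) - dl N (j - r - q)) / 2 := by
  have hN' : (N : ℝ) ≠ 0 := by positivity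
  have e : ∀ a ∈ range N, Real.cos (j * (a * h N)) *
        (2 / N * (Real.sin (r * (a * h N)) * Real.sin (q * (a * h N)))) =
      1 / (2 * N) * (Real.cos (((j + r - q : ℤ) : ℝ) * (a * h N)) +
        Real.cos (((j - r + q : ℤ) : ℝ) * (a * h N)) -
        Real.cos (((j + r + q : ℤ) : ℝ) * (a * h N)) -
        Real.cos (((j - r - q : ℤ) : ℝ) * (a * h N))) := by
    intro a _
    push_cast
    set x := (a : ℝ) * h N
    rw [show ((j : ℝ) + r - q) * x = j * x + (r * x - q * x) by ring,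
      show ((j : ℝ) - r + q) * x = j * x - (r * x - q * x) by ring,
      show ((j : ℝ) + r + q) * x = j * x + (r * x + q * x) by ring,
      show ((j : ℝ) - r - q) * x = j * x - (r * x + q * x) by ring]
    simp only [Real.cos_add, Real.cos_sub, Real.sin_add, Real.sin_sub]
    field_simp
    ring
  rw [sum_congr rfl e, ← mul_sum, sum_sub_distrib, sum_sub_distrib, sum_add_distrib,
    cos_sum N hN, cos_sum N hN, cos_sum N hN, cos_sum N hN]
  have hpar : ∀ m m' : ℤ, (Even (m - m')) → (Odd m ↔ Odd m') := by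
    intro m m' hm
    rw [Int.even_sub] at hm
    rw [← Int.not_even_iff_odd, ← Int.not_even_iff_odd, hm]
  have k : ∀ m : ℤ, (if (2 * (N : ℤ)) ∣ m then (N : ℝ) else if Odd m then 1 else 0) =
      N * dl N m + (if Odd m then 1 else 0) := by
    intro m
    unfold dl
    split_ifs with h1 h2 h2
    · exfalso
      rw [← Int.not_even_iff_odd] at h2
      exact h2 (even_iff_two_dvd.2 (dvd_trans ⟨N, rfl⟩ h1))
    · simp
    · simp
    · simp
  rw [k, k, k, k]
  have o1 : (Odd (j - r + q)) ↔ Odd (j + r - q) := hpar _ _ ⟨q - r, by ring⟩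
  have o2 : (Odd (j + r + q)) ↔ Odd (j + r - q) := hpar _ _ ⟨q, by ring⟩
  have o3 : (Odd (j - r - q)) ↔ Odd (j + r - q) := hpar _ _ ⟨-r, by ring⟩
  simp only [o1, o2, o3]
  field_simp
  ring

/-! ### Diagonalisation of the path -/

/-- orthonormal eigenvector matrix, real symmetric -/
noncomputable def V (n : ℕ) (a k : Fin n) : ℝ :=
  √(2 / (n + 1 : ℕ)) * Real.sin (((k : ℕ) + 1 : ℕ) * ((((a : ℕ) + 1 : ℕ) : ℝ) * h (n + 1)))

/-- eigenvalue -/
noncomputable def th (n : ℕ) (k : Fin n) : ℝ :=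
  2 * Real.cos ((((k : ℕ) + 1 : ℕ) : ℝ) * h (n + 1))

lemma V_symm (n : ℕ) (a k : Fin n) : V n a k = V n k a := by
  unfold V
  congr 2
  ring

/-- sum over `Fin n` of a function of `a+1` vanishing at `0` -/
lemma sum_fin_succ (n : ℕ) (g : ℕ → ℝ) (g0 : g 0 = 0) :
    ∑ a : Fin n, g ((a : ℕ) + 1) = ∑ a ∈ range (n + 1), g a := by
  rw [sum_range_succ', g0, add_zero, Finset.sum_range]

lemma V_mul (n : ℕ) (a r q : Fin n) : V n a r * V n a q =
    2 / ((n + 1 : ℕ) : ℝ) * (Real.sin ((((r : ℕ) + 1 : ℕ) : ℤ) * ((((a : ℕ) + 1 : ℕ) : ℝ) * h (n + 1))) *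
      Real.sin ((((q : ℕ) + 1 : ℕ) : ℤ) * ((((a : ℕ) + 1 : ℕ) : ℝ) * h (n + 1)))) := by
  unfold V
  have : √(2 / ((n + 1 : ℕ) : ℝ)) * √(2 / ((n + 1 : ℕ) : ℝ)) = 2 / ((n + 1 : ℕ) : ℝ) :=
    Real.mul_self_sqrt (by positivity)
  have e : ∀ x : ℕ, ((x : ℤ) : ℝ) = (x : ℝ) := fun x => by push_cast; rfl
  rw [e, e]
  linear_combination (Real.sin ((((r : ℕ) + 1 : ℕ) : ℝ) * ((((a : ℕ) + 1 : ℕ) : ℝ) * h (n + 1))) *
      Real.sin ((((q : ℕ) + 1 : ℕ) : ℝ) * ((((a : ℕ) + 1 : ℕ) : ℝ) * h (n + 1)))) * this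

/-- `S_j(r,q) = ∑ a, cos(j a h) v_r(a) v_q(a)` -/
lemma S_eq (n : ℕ) (j : ℤ) (r q : Fin n) :
    ∑ a : Fin n, Real.cos (j * ((((a : ℕ) + 1 : ℕ) : ℝ) * h (n + 1))) * (V n a r * V n a q) =
      (dl (n + 1) (j + ((r : ℕ) + 1 : ℕ) - ((q : ℕ) + 1 : ℕ)) +
       dl (n + 1) (j - ((r : ℕ) + 1 : ℕ) + ((q : ℕ) + 1 : ℕ)) -
       dl (n + 1) (j + ((r : ℕ) + 1 : ℕ) + ((q : ℕ) + 1 : ℕ)) -
       dl (n + 1) (j - ((r : ℕ) + 1 : ℕ) - ((q : ℕ) + 1 : ℕ))) / 2 := by
  rw [← S_formula (n + 1) (Nat.succ_pos n)]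
  rw [← sum_fin_succ n (fun a => Real.cos (j * ((a : ℝ) * h (n + 1))) *
        (2 / ((n + 1 : ℕ) : ℝ) * (Real.sin ((((r : ℕ) + 1 : ℕ) : ℤ) * ((a : ℝ) * h (n + 1))) *
          Real.sin ((((q : ℕ) + 1 : ℕ) : ℤ) * ((a : ℝ) * h (n + 1)))))) (by simp)]
  refine sum_congr rfl fun a _ => ?_
  rw [V_mul]

lemma dl_of_lt (N : ℕ) (m : ℤ) (h1 : -(2 * (N : ℤ)) < m) (h2 : m < 2 * N) :
    dl N m = if m = 0 then 1 else 0 := by
  unfold dl
  have : (2 * (N : ℤ)) ∣ m ↔ m = 0 := by
    constructor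
    · intro hd
      exact Int.eq_zero_of_abs_lt_dvd hd (abs_lt.2 ⟨h1, h2⟩)
    · rintro rfl; exact dvd_zero _
  simp only [this]

lemma dl_of_lt' (N : ℕ) (m : ℤ) (h1 : 0 < m) (h2 : m < 4 * N) :
    dl N m = if m = 2 * N then 1 else 0 := by
  unfold dl
  have : (2 * (N : ℤ)) ∣ m ↔ m = 2 * N := by
    constructor
    · intro hd
      have h3 : (2 * (N : ℤ)) ∣ m - 2 * N := Int.dvd_sub hd (dvd_refl _)
      have := Int.eq_zero_of_abs_lt_dvd h3 (abs_lt.2 ⟨by linarith, by linarith⟩)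
      linarith
    · rintro rfl; exact dvd_refl _
  simp only [this]

/-- `V² = 1`. -/
lemma V_orth (n : ℕ) (r q : Fin n) : ∑ a : Fin n, V n a r * V n a q = if r = q then 1 else 0 := by
  have := S_eq n 0 r q
  simp only [Int.cast_zero, zero_mul, Real.cos_zero, one_mul] at this
  rw [this]
  have hr := r.2
  have hq := q.2
  rw [dl_of_lt _ _ (by omega) (by omega), dl_of_lt _ _ (by omega) (by omega),
    dl_of_lt' _ _ (by omega) (by omega), dl_of_lt _ _ (by omega) (by omega)]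
  have e : r = q ↔ (r : ℕ) = q := Fin.ext_iff
  simp only [e]
  split_ifs <;> first | omega | norm_num

/-- complex eigenvector matrix -/
noncomputable def VC (n : ℕ) : Matrix (Fin n) (Fin n) ℂ := Matrix.of fun a k => (V n a k : ℂ)

lemma VC_sq (n : ℕ) : VC n * VC n = 1 := by
  ext r q
  rw [Matrix.mul_apply]
  have := V_orth n r q
  simp only [VC, Matrix.of_apply]
  rw [Matrix.one_apply]
  have h2 : ∑ a : Fin n, (V n r a : ℂ) * (V n a q : ℂ) = ((∑ a : Fin n, V n a r * V n a q : ℝ) : ℂ) := by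
    push_cast
    refine sum_congr rfl fun a _ => ?_
    rw [V_symm n r a]
  rw [h2, this]
  split_ifs <;> simp

lemma sin_three (x y : ℝ) : Real.sin (x * y - x) + Real.sin (x * y + x) = 2 * Real.cos x * Real.sin (x * y) := by
  rw [Real.sin_add, Real.sin_sub]; ring

open scoped Classical in
lemma adj_V (n : ℕ) (a k : Fin n) :
    ∑ b : Fin n, (if (SimpleGraph.pathGraph n).Adj a b then V n b k else 0) = th n k * V n a k := by
  classical
  set c : ℝ := √(2 / ((n + 1 : ℕ) : ℝ)) with hc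
  let g : ℕ → ℝ := fun x => c * Real.sin ((((k : ℕ) + 1 : ℕ) : ℝ) * ((x : ℝ) * h (n + 1)))
  have g0 : g 0 = 0 := by simp [g]
  have gN : g (n + 1) = 0 := by
    simp only [g]
    have : (((k : ℕ) + 1 : ℕ) : ℝ) * (((n + 1 : ℕ) : ℝ) * h (n + 1)) = (((k : ℕ) + 1 : ℕ) : ℝ) * Real.pi := by
      unfold h
      have : ((n + 1 : ℕ) : ℝ) ≠ 0 := by positivity
      field_simp
    rw [this, Real.sin_nat_mul_pi, mul_zero]
  have e : ∀ b : Fin n, V n b k = g ((b : ℕ) + 1) := fun b => rfl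
  have hsum : ∑ b : Fin n, (if (SimpleGraph.pathGraph n).Adj a b then V n b k else 0) =
      ∑ b : Fin n, (if (b : ℕ) = (a : ℕ) + 1 then g ((b : ℕ) + 1) else 0) +
      ∑ b : Fin n, (if (b : ℕ) + 1 = (a : ℕ) then g ((b : ℕ) + 1) else 0) := by
    rw [← sum_add_distrib]
    refine sum_congr rfl fun b _ => ?_
    rw [e]
    simp only [SimpleGraph.pathGraph_adj]
    by_cases h1 : (a : ℕ) + 1 = b
    · have h2 : ¬ ((b : ℕ) + 1 = a) := by omega
      rw [if_pos (Or.inl h1), if_pos h1.symm, if_neg h2, add_zero]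
    · have h3 : ¬ ((b : ℕ) = (a : ℕ) + 1) := fun h => h1 h.symm
      by_cases h2 : (b : ℕ) + 1 = a
      · rw [if_pos (Or.inr h2), if_neg h3, if_pos h2, zero_add]
      · rw [if_neg (by tauto), if_neg h3, if_neg h2, zero_add]
  have s1 : ∑ b : Fin n, (if (b : ℕ) = (a : ℕ) + 1 then g ((b : ℕ) + 1) else 0) = g ((a : ℕ) + 2) := by
    by_cases h1 : (a : ℕ) + 1 < n
    · rw [Finset.sum_eq_single (⟨(a : ℕ) + 1, h1⟩ : Fin n)]
      · simp
      · intro b _ hb
        rw [if_neg]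
        intro h2
        exact hb (Fin.ext h2)
      · simp
    · have : (a : ℕ) + 2 = n + 1 := by have := a.2; omega
      rw [this, gN]
      refine sum_eq_zero fun b _ => ?_
      rw [if_neg]
      have := b.2
      omega
  have s2 : ∑ b : Fin n, (if (b : ℕ) + 1 = (a : ℕ) then g ((b : ℕ) + 1) else 0) = g (a : ℕ) := by
    by_cases h1 : (a : ℕ) = 0
    · rw [h1, g0]
      refine sum_eq_zero fun b _ => ?_
      rw [if_neg (by omega)]
    · have h2 : (a : ℕ) - 1 < n := by have := a.2; omega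
      rw [Finset.sum_eq_single (⟨(a : ℕ) - 1, h2⟩ : Fin n)]
      · have : (a : ℕ) - 1 + 1 = a := by omega
        simp [this]
      · intro b _ hb
        rw [if_neg]
        intro h3
        exact hb (Fin.ext (by simp; omega))
      · simp
  rw [hsum, s1, s2, e]
  simp only [g, th]
  have := sin_three ((((k : ℕ) + 1 : ℕ) : ℝ) * h (n + 1)) (((a : ℕ) + 1 : ℕ) : ℝ)
  have e1 : (((k : ℕ) + 1 : ℕ) : ℝ) * h (n + 1) * (((a : ℕ) + 1 : ℕ) : ℝ) - (((k : ℕ) + 1 : ℕ) : ℝ) * h (n + 1) =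
    (((k : ℕ) + 1 : ℕ) : ℝ) * (((a : ℕ) : ℝ) * h (n + 1)) := by push_cast; ring
  have e2 : (((k : ℕ) + 1 : ℕ) : ℝ) * h (n + 1) * (((a : ℕ) + 1 : ℕ) : ℝ) + (((k : ℕ) + 1 : ℕ) : ℝ) * h (n + 1) =
    (((k : ℕ) + 1 : ℕ) : ℝ) * ((((a : ℕ) + 2 : ℕ) : ℝ) * h (n + 1)) := by push_cast; ring
  have e3 : (((k : ℕ) + 1 : ℕ) : ℝ) * h (n + 1) * (((a : ℕ) + 1 : ℕ) : ℝ) =
    (((k : ℕ) + 1 : ℕ) : ℝ) * ((((a : ℕ) + 1 : ℕ) : ℝ) * h (n + 1)) := by ring
  rw [e1, e2, e3] at this
  linear_combination c * this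

lemma adj_eq (n : ℕ) :
    adj n = VC n * Matrix.diagonal (fun k => (th n k : ℂ)) * VC n := by
  classical
  have h1 : adj n * VC n = VC n * Matrix.diagonal (fun k => (th n k : ℂ)) := by
    ext a k
    rw [Matrix.mul_diagonal, Matrix.mul_apply]
    have := adj_V n a k
    have e : ∑ j : Fin n, adj n a j * VC n j k =
        ((∑ b : Fin n, (if (SimpleGraph.pathGraph n).Adj a b then V n b k else 0) : ℝ) : ℂ) := by
      push_cast
      refine sum_congr rfl fun b _ => ?_
      unfold adj VC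
      rw [SimpleGraph.adjMatrix_apply, Matrix.of_apply]
      split_ifs <;> simp
    rw [e, this]
    simp only [VC, Matrix.of_apply]
    push_cast
    ring
  calc adj n = adj n * (VC n * VC n) := by rw [VC_sq, mul_one]
    _ = (adj n * VC n) * VC n := by rw [Matrix.mul_assoc]
    _ = _ := by rw [h1]

lemma walk_eq (n : ℕ) (t : ℝ) :
    walk n t = VC n * Matrix.diagonal (fun k => Complex.exp (Complex.I * t * th n k)) * VC n := by
  have hu : IsUnit (VC n) := by
    rw [isUnit_iff_exists]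
    exact ⟨VC n, VC_sq n, VC_sq n⟩
  have hinv : (VC n)⁻¹ = VC n := Matrix.inv_eq_right_inv (VC_sq n)
  unfold walk
  have e : (Complex.I * (t : ℂ)) • adj n =
      VC n * Matrix.diagonal (fun k => Complex.I * t * (th n k : ℂ)) * (VC n)⁻¹ := by
    rw [adj_eq, hinv, ← Matrix.smul_mul, ← Matrix.mul_smul]
    congr 2
    ext i j
    simp [Matrix.diagonal_apply]
  rw [e, Matrix.exp_conj _ _ hu, hinv, Matrix.exp_diagonal]
  congr 3
  ext k
  rw [Pi.coe_exp, Complex.exp_eq_exp_ℂ]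

lemma walk_apply (n : ℕ) (t : ℝ) (a b : Fin n) :
    walk n t a b = ∑ k : Fin n, ((V n a k * V n b k : ℝ) : ℂ) *
      Complex.exp (((t * th n k : ℝ) : ℂ) * Complex.I) := by
  rw [walk_eq, Matrix.mul_apply]
  refine sum_congr rfl fun k _ => ?_
  rw [Matrix.mul_diagonal]
  simp only [VC, Matrix.of_apply]
  rw [V_symm n k b]
  push_cast
  rw [show Complex.I * (t : ℂ) * (th n k : ℂ) = (t : ℂ) * (th n k : ℂ) * Complex.I by ring]
  ring

lemma mixing_apply (n : ℕ) (t : ℝ) (a b : Fin n) :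
    mixing n t a b = ∑ r : Fin n, ∑ q : Fin n,
      Real.cos ((th n r - th n q) * t) * ((V n a r * V n a q) * (V n b r * V n b q)) := by
  have h1 : mixing n t a b = ‖walk n t a b‖ ^ 2 := rfl
  rw [h1, walk_apply]
  have h2 : (∑ k : Fin n, ((V n a k * V n b k : ℝ) : ℂ) *
      Complex.exp (((t * th n k : ℝ) : ℂ) * Complex.I)) =
      ((∑ k : Fin n, V n a k * V n b k * Real.cos (t * th n k) : ℝ) : ℂ) +
      ((∑ k : Fin n, V n a k * V n b k * Real.sin (t * th n k) : ℝ) : ℂ) * Complex.I := by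
    rw [Complex.ofReal_sum, Complex.ofReal_sum, sum_mul, ← sum_add_distrib]
    refine sum_congr rfl fun k _ => ?_
    rw [Complex.exp_mul_I, ← Complex.ofReal_cos, ← Complex.ofReal_sin]
    push_cast
    ring
  rw [h2, ← Complex.normSq_eq_norm_sq, Complex.normSq_add_mul_I, pow_two, pow_two, sum_mul_sum,
    sum_mul_sum, ← sum_add_distrib]
  refine sum_congr rfl fun r _ => ?_
  rw [← sum_add_distrib]
  refine sum_congr rfl fun q _ => ?_
  rw [show (th n r - th n q) * t = t * th n r - t * th n q by ring, Real.cos_sub]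
  ring

/-! ### The averaged matrix -/

/-- the cosine transform of `f` -/
noncomputable def ct (f : ℝ → ℝ) (x : ℝ) : ℝ := ∫ s, f s * Real.cos (x * s)

lemma IsDensity.integrable {f : ℝ → ℝ} (hf : IsDensity f) : Integrable f := by
  by_contra h0
  have := hf.int
  rw [integral_undef h0] at this
  exact zero_ne_one this

lemma int_cos {f : ℝ → ℝ} (hf : Integrable f) (x : ℝ) :
    Integrable (fun s => f s * Real.cos (x * s)) := by
  refine hf.mono (hf.aestronglyMeasurable.mul (by fun_prop)) (Filter.Eventually.of_forall fun s => ?_)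
  rw [norm_mul]
  have : ‖Real.cos (x * s)‖ ≤ 1 := by
    rw [Real.norm_eq_abs]; exact Real.abs_cos_le_one _
  exact mul_le_of_le_one_right (norm_nonneg _) this

lemma ct_neg (f : ℝ → ℝ) (x : ℝ) : ct f (-x) = ct f x := by
  unfold ct
  congr 1
  ext s
  rw [neg_mul, Real.cos_neg]

lemma avg_apply (n : ℕ) {f : ℝ → ℝ} (hf : IsDensity f) (a b : Fin n) :
    avg n f a b = ∑ r : Fin n, ∑ q : Fin n,
      ct f (th n r - th n q) * ((V n a r * V n a q) * (V n b r * V n b q)) := by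
  have h1 : avg n f a b = ∫ s, f s * mixing n s a b := rfl
  rw [h1]
  have h2 : ∀ s, f s * mixing n s a b = ∑ r : Fin n, ∑ q : Fin n,
      (f s * Real.cos ((th n r - th n q) * s)) * ((V n a r * V n a q) * (V n b r * V n b q)) := by
    intro s
    rw [mixing_apply, mul_sum]
    refine sum_congr rfl fun r _ => ?_
    rw [mul_sum]
    refine sum_congr rfl fun q _ => ?_
    ring
  simp_rw [h2]
  have hi := hf.integrable
  rw [integral_finsetSum _ (fun r _ => integrable_finsetSum _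
    (fun q _ => (int_cos hi _).mul_const _))]
  refine sum_congr rfl fun r _ => ?_
  rw [integral_finsetSum _ (fun q _ => (int_cos hi _).mul_const _)]
  refine sum_congr rfl fun q _ => ?_
  rw [integral_mul_const]
  rfl

lemma four_sum (n : ℕ) (x y : Fin n → ℝ) (C : Fin n → Fin n → ℝ) (W : Fin n → Fin n → ℝ) :
    ∑ a, ∑ b, x a * y b * (∑ r, ∑ q, C r q * ((W a r * W a q) * (W b r * W b q))) =
    ∑ r, ∑ q, C r q * ((∑ a, x a * (W a r * W a q)) * (∑ b, y b * (W b r * W b q))) := by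
  have e1 : ∑ a, ∑ b, x a * y b * (∑ r, ∑ q, C r q * ((W a r * W a q) * (W b r * W b q))) =
      ∑ u : Fin n × Fin n, ∑ v : Fin n × Fin n, x u.1 * y u.2 *
        (C v.1 v.2 * ((W u.1 v.1 * W u.1 v.2) * (W u.2 v.1 * W u.2 v.2))) := by
    rw [Fintype.sum_prod_type]
    refine sum_congr rfl fun a _ => sum_congr rfl fun b _ => ?_
    rw [Fintype.sum_prod_type, mul_sum]
    refine sum_congr rfl fun r _ => ?_
    rw [mul_sum]
  have e2 : ∑ r, ∑ q, C r q * ((∑ a, x a * (W a r * W a q)) * (∑ b, y b * (W b r * W b q))) =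
      ∑ v : Fin n × Fin n, ∑ u : Fin n × Fin n, x u.1 * y u.2 *
        (C v.1 v.2 * ((W u.1 v.1 * W u.1 v.2) * (W u.2 v.1 * W u.2 v.2))) := by
    rw [Fintype.sum_prod_type]
    refine sum_congr rfl fun r _ => sum_congr rfl fun q _ => ?_
    rw [Fintype.sum_prod_type, sum_mul_sum, mul_sum]
    refine sum_congr rfl fun a _ => ?_
    rw [mul_sum]
    refine sum_congr rfl fun b _ => ?_
    ring
  rw [e1, e2, sum_comm]

lemma th_rev (n : ℕ) (k : Fin n) : th n (Fin.rev k) = - th n k := by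
  unfold th
  have hk := k.2
  have e : (((Fin.rev k : Fin n) : ℕ) + 1 : ℕ) = n + 1 - ((k : ℕ) + 1) := by
    rw [Fin.val_rev]; omega
  rw [e, Nat.cast_sub (by omega)]
  have : (((n + 1 : ℕ) : ℝ) - (((k : ℕ) + 1 : ℕ) : ℝ)) * h (n + 1) =
      Real.pi - (((k : ℕ) + 1 : ℕ) : ℝ) * h (n + 1) := by
    rw [sub_mul]
    congr 1
    unfold h
    have : ((n + 1 : ℕ) : ℝ) ≠ 0 := by positivity
    field_simp
  rw [this, Real.cos_pi_sub]
  ring

lemma S_eq' (n : ℕ) (j : ℤ) (h0 : 0 < j) (hj : j ≤ n + 1) (r q : Fin n) :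
    ∑ a : Fin n, Real.cos (j * ((((a : ℕ) + 1 : ℕ) : ℝ) * h (n + 1))) * (V n a r * V n a q) =
      ((if ((q : ℕ) : ℤ) - ((r : ℕ) : ℤ) = j then 1 else 0) +
       (if ((r : ℕ) : ℤ) - ((q : ℕ) : ℤ) = j then 1 else 0) -
       (if ((r : ℕ) : ℤ) + ((q : ℕ) : ℤ) + 2 = 2 * (n + 1) - j then 1 else 0) -
       (if ((r : ℕ) : ℤ) + ((q : ℕ) : ℤ) + 2 = j then 1 else 0)) / 2 := by
  rw [S_eq]
  have hr := r.2
  have hq := q.2
  rw [dl_of_lt _ _ (by push_cast; omega) (by push_cast; omega),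
    dl_of_lt _ _ (by push_cast; omega) (by push_cast; omega),
    dl_of_lt' _ _ (by push_cast; omega) (by push_cast; omega),
    dl_of_lt _ _ (by push_cast; omega) (by push_cast; omega)]
  have e1 : (j + (((r : ℕ) + 1 : ℕ) : ℤ) - (((q : ℕ) + 1 : ℕ) : ℤ) = 0) ↔
    (((q : ℕ) : ℤ) - ((r : ℕ) : ℤ) = j) := by push_cast; omega
  have e2 : (j - (((r : ℕ) + 1 : ℕ) : ℤ) + (((q : ℕ) + 1 : ℕ) : ℤ) = 0) ↔
    (((r : ℕ) : ℤ) - ((q : ℕ) : ℤ) = j) := by push_cast; omega
  have e3 : (j + (((r : ℕ) + 1 : ℕ) : ℤ) + (((q : ℕ) + 1 : ℕ) : ℤ) = 2 * ((n + 1 : ℕ) : ℤ)) ↔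
    (((r : ℕ) : ℤ) + ((q : ℕ) : ℤ) + 2 = 2 * (n + 1) - j) := by push_cast; omega
  have e4 : (j - (((r : ℕ) + 1 : ℕ) : ℤ) - (((q : ℕ) + 1 : ℕ) : ℤ) = 0) ↔
    (((r : ℕ) : ℤ) + ((q : ℕ) : ℤ) + 2 = j) := by push_cast; omega
  simp only [e1, e2, e3, e4]

lemma ind_zero {p q : Prop} [Decidable p] [Decidable q] (hpq : ¬ (p ∧ q)) :
    (if p then (1 : ℝ) else 0) * (if q then (1 : ℝ) else 0) = 0 := by
  split_ifs <;> first | (exfalso; tauto) | simp

lemma ind_and {p q s : Prop} [Decidable p] [Decidable q] [Decidable s] (hpq : (p ∧ q) ↔ s) :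
    (if p then (1 : ℝ) else 0) * (if q then (1 : ℝ) else 0) = (if s then 1 else 0) := by
  split_ifs <;> first | (exfalso; tauto) | simp

lemma SS (n : ℕ) (K L : Fin n) (hKL : L < K) (hs : (K : ℕ) + L + 2 ≤ n + 1) (r q : Fin n) :
    (∑ a : Fin n, Real.cos (((((K : ℕ) : ℤ) - ((L : ℕ) : ℤ) : ℤ) : ℝ) *
        ((((a : ℕ) + 1 : ℕ) : ℝ) * h (n + 1))) * (V n a r * V n a q)) *
    (∑ a : Fin n, Real.cos (((((K : ℕ) : ℤ) + ((L : ℕ) : ℤ) + 2 : ℤ) : ℝ) *
        ((((a : ℕ) + 1 : ℕ) : ℝ) * h (n + 1))) * (V n a r * V n a q)) =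
    -(1 / 4) * ((if r = K ∧ q = L then 1 else 0) + (if r = L ∧ q = K then 1 else 0) +
      (if r = Fin.rev L ∧ q = Fin.rev K then 1 else 0) +
      (if r = Fin.rev K ∧ q = Fin.rev L then 1 else 0)) := by
  have hKL' : (L : ℕ) < K := hKL
  have hr := r.2
  have hq := q.2
  have hK := K.2
  have hL := L.2
  rw [S_eq' n _ (by omega) (by omega), S_eq' n _ (by omega) (by omega)]
  simp only [Fin.ext_iff, Fin.val_rev]
  set j : ℤ := ((K : ℕ) : ℤ) - ((L : ℕ) : ℤ) with hj
  set j' : ℤ := ((K : ℕ) : ℤ) + ((L : ℕ) : ℤ) + 2 with hj'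
  have a1b1 : (if ((q : ℕ) : ℤ) - ((r : ℕ) : ℤ) = j then (1 : ℝ) else 0) *
    (if ((q : ℕ) : ℤ) - ((r : ℕ) : ℤ) = j' then (1 : ℝ) else 0) = 0 := ind_zero (by omega)
  have a1b2 : (if ((q : ℕ) : ℤ) - ((r : ℕ) : ℤ) = j then (1 : ℝ) else 0) *
    (if ((r : ℕ) : ℤ) - ((q : ℕ) : ℤ) = j' then (1 : ℝ) else 0) = 0 := ind_zero (by omega)
  have a2b1 : (if ((r : ℕ) : ℤ) - ((q : ℕ) : ℤ) = j then (1 : ℝ) else 0) *
    (if ((q : ℕ) : ℤ) - ((r : ℕ) : ℤ) = j' then (1 : ℝ) else 0) = 0 := ind_zero (by omega)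
  have a2b2 : (if ((r : ℕ) : ℤ) - ((q : ℕ) : ℤ) = j then (1 : ℝ) else 0) *
    (if ((r : ℕ) : ℤ) - ((q : ℕ) : ℤ) = j' then (1 : ℝ) else 0) = 0 := ind_zero (by omega)
  have a3b1 : (if ((r : ℕ) : ℤ) + ((q : ℕ) : ℤ) + 2 = 2 * (n + 1) - j then (1 : ℝ) else 0) *
    (if ((q : ℕ) : ℤ) - ((r : ℕ) : ℤ) = j' then (1 : ℝ) else 0) = 0 := ind_zero (by omega)
  have a3b2 : (if ((r : ℕ) : ℤ) + ((q : ℕ) : ℤ) + 2 = 2 * (n + 1) - j then (1 : ℝ) else 0) *
    (if ((r : ℕ) : ℤ) - ((q : ℕ) : ℤ) = j' then (1 : ℝ) else 0) = 0 := ind_zero (by omega)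
  have a4b1 : (if ((r : ℕ) : ℤ) + ((q : ℕ) : ℤ) + 2 = j then (1 : ℝ) else 0) *
    (if ((q : ℕ) : ℤ) - ((r : ℕ) : ℤ) = j' then (1 : ℝ) else 0) = 0 := ind_zero (by omega)
  have a4b2 : (if ((r : ℕ) : ℤ) + ((q : ℕ) : ℤ) + 2 = j then (1 : ℝ) else 0) *
    (if ((r : ℕ) : ℤ) - ((q : ℕ) : ℤ) = j' then (1 : ℝ) else 0) = 0 := ind_zero (by omega)
  have a3b3 : (if ((r : ℕ) : ℤ) + ((q : ℕ) : ℤ) + 2 = 2 * (n + 1) - j then (1 : ℝ) else 0) *
    (if ((r : ℕ) : ℤ) + ((q : ℕ) : ℤ) + 2 = 2 * (n + 1) - j' then (1 : ℝ) else 0) = 0 :=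
    ind_zero (by omega)
  have a3b4 : (if ((r : ℕ) : ℤ) + ((q : ℕ) : ℤ) + 2 = 2 * (n + 1) - j then (1 : ℝ) else 0) *
    (if ((r : ℕ) : ℤ) + ((q : ℕ) : ℤ) + 2 = j' then (1 : ℝ) else 0) = 0 := ind_zero (by omega)
  have a4b3 : (if ((r : ℕ) : ℤ) + ((q : ℕ) : ℤ) + 2 = j then (1 : ℝ) else 0) *
    (if ((r : ℕ) : ℤ) + ((q : ℕ) : ℤ) + 2 = 2 * (n + 1) - j' then (1 : ℝ) else 0) = 0 :=
    ind_zero (by omega)
  have a4b4 : (if ((r : ℕ) : ℤ) + ((q : ℕ) : ℤ) + 2 = j then (1 : ℝ) else 0) *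
    (if ((r : ℕ) : ℤ) + ((q : ℕ) : ℤ) + 2 = j' then (1 : ℝ) else 0) = 0 := ind_zero (by omega)
  have a2b4 : (if ((r : ℕ) : ℤ) - ((q : ℕ) : ℤ) = j then (1 : ℝ) else 0) *
    (if ((r : ℕ) : ℤ) + ((q : ℕ) : ℤ) + 2 = j' then (1 : ℝ) else 0) =
    (if (r : ℕ) = K ∧ (q : ℕ) = L then 1 else 0) := ind_and (by omega)
  have a1b4 : (if ((q : ℕ) : ℤ) - ((r : ℕ) : ℤ) = j then (1 : ℝ) else 0) *
    (if ((r : ℕ) : ℤ) + ((q : ℕ) : ℤ) + 2 = j' then (1 : ℝ) else 0) =
    (if (r : ℕ) = L ∧ (q : ℕ) = K then 1 else 0) := ind_and (by omega)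
  have a2b3 : (if ((r : ℕ) : ℤ) - ((q : ℕ) : ℤ) = j then (1 : ℝ) else 0) *
    (if ((r : ℕ) : ℤ) + ((q : ℕ) : ℤ) + 2 = 2 * (n + 1) - j' then (1 : ℝ) else 0) =
    (if (r : ℕ) = n - (L + 1) ∧ (q : ℕ) = n - (K + 1) then 1 else 0) := ind_and (by omega)
  have a1b3 : (if ((q : ℕ) : ℤ) - ((r : ℕ) : ℤ) = j then (1 : ℝ) else 0) *
    (if ((r : ℕ) : ℤ) + ((q : ℕ) : ℤ) + 2 = 2 * (n + 1) - j' then (1 : ℝ) else 0) =
    (if (r : ℕ) = n - (K + 1) ∧ (q : ℕ) = n - (L + 1) then 1 else 0) := ind_and (by omega)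
  rw [← a2b4, ← a1b4, ← a2b3, ← a1b3]
  linear_combination (1 / 4) * a1b1 + (1 / 4) * a1b2 + (1 / 4) * a2b1 + (1 / 4) * a2b2
    - (1 / 4) * a3b1 - (1 / 4) * a3b2 - (1 / 4) * a4b1 - (1 / 4) * a4b2
    + (1 / 4) * a3b3 + (1 / 4) * a3b4 + (1 / 4) * a4b3 + (1 / 4) * a4b4

lemma cos_sum_fin (n : ℕ) (j : ℤ) (h0 : 0 < j) (hj : j ≤ n + 1) :
    ∑ a : Fin n, Real.cos (j * ((((a : ℕ) + 1 : ℕ) : ℝ) * h (n + 1))) = if Even j then -1 else 0 := by
  have h1 := cos_sum (n + 1) (Nat.succ_pos n) j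
  rw [sum_range_succ'] at h1
  have h2 : ¬ (2 * ((n + 1 : ℕ) : ℤ)) ∣ j := by
    intro hd
    have := Int.le_of_dvd h0 hd
    push_cast at this
    linarith
  rw [if_neg h2] at h1
  rw [Finset.sum_range (fun a => Real.cos (j * (((a + 1 : ℕ) : ℝ) * h (n + 1))))] at h1
  simp only [Nat.cast_zero, zero_mul, mul_zero, Real.cos_zero] at h1
  rw [eq_sub_of_add_eq h1]
  by_cases he : Even j
  · rw [if_neg (by rw [Int.not_odd_iff_even]; exact he), if_pos he]; norm_num
  · rw [if_pos (Int.not_even_iff_odd.1 he), if_neg he]; norm_num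

/-- The characteristic function at a difference of eigenvalues, for a constant average. -/
lemma ct_of_const (n : ℕ) {f : ℝ → ℝ} (hf : IsDensity f)
    (hc : ∀ a b : Fin n, avg n f a b = 1 / n) (K L : Fin n) (hKL : L < K)
    (hs : (K : ℕ) + L + 2 ≤ n + 1) :
    ct f (th n K - th n L) = if Even ((K : ℕ) + L) then -(1 / (n : ℝ)) else 0 := by
  have hKL' : (L : ℕ) < K := hKL
  have hK := K.2
  have hSS := SS n K L hKL hs
  set j : ℤ := ((K : ℕ) : ℤ) - ((L : ℕ) : ℤ) with hj
  set j' : ℤ := ((K : ℕ) : ℤ) + ((L : ℕ) : ℤ) + 2 with hj'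
  have h1 := four_sum n (fun a => Real.cos (j * ((((a : ℕ) + 1 : ℕ) : ℝ) * h (n + 1))))
    (fun a => Real.cos (j' * ((((a : ℕ) + 1 : ℕ) : ℝ) * h (n + 1))))
    (fun r q => ct f (th n r - th n q)) (fun a r => V n a r)
  have h2 : ∀ a b : Fin n, (∑ r : Fin n, ∑ q : Fin n,
      ct f (th n r - th n q) * ((V n a r * V n a q) * (V n b r * V n b q))) = 1 / n := by
    intro a b
    rw [← avg_apply n hf, hc]
  simp only [h2] at h1
  simp only [hSS] at h1
  have h3 : ∑ a : Fin n, ∑ b : Fin n, Real.cos (j * ((((a : ℕ) + 1 : ℕ) : ℝ) * h (n + 1))) *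
      Real.cos (j' * ((((b : ℕ) + 1 : ℕ) : ℝ) * h (n + 1))) * (1 / (n : ℝ)) =
      (∑ a : Fin n, Real.cos (j * ((((a : ℕ) + 1 : ℕ) : ℝ) * h (n + 1)))) *
      (∑ a : Fin n, Real.cos (j' * ((((a : ℕ) + 1 : ℕ) : ℝ) * h (n + 1)))) * (1 / n) := by
    rw [sum_mul_sum, sum_mul]
    refine sum_congr rfl fun a _ => ?_
    rw [sum_mul]
  rw [h3, cos_sum_fin n j (by omega) (by omega), cos_sum_fin n j' (by omega) (by omega)] at h1
  have e1 : Even j ↔ Even ((K : ℕ) + L) := by
    rw [hj, Int.even_sub, Nat.even_add]; simp [Int.even_coe_nat]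
  have e2 : Even j' ↔ Even ((K : ℕ) + L) := by
    rw [hj', Int.even_add, Int.even_add, Nat.even_add]; simp [Int.even_coe_nat]
  simp only [e1, e2] at h1
  have h4 : ∑ r : Fin n, ∑ q : Fin n, ct f (th n r - th n q) * (-(1 / 4) *
      ((if r = K ∧ q = L then 1 else 0) + (if r = L ∧ q = K then 1 else 0) +
      (if r = Fin.rev L ∧ q = Fin.rev K then 1 else 0) +
      (if r = Fin.rev K ∧ q = Fin.rev L then 1 else 0))) = - ct f (th n K - th n L) := by
    have g : ∀ X Y : Fin n, ∑ r : Fin n, ∑ q : Fin n, ct f (th n r - th n q) *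
        (if r = X ∧ q = Y then (1 : ℝ) else 0) = ct f (th n X - th n Y) := by
      intro X Y
      rw [Finset.sum_eq_single X, Finset.sum_eq_single Y]
      · simp
      · intro q _ hq; rw [if_neg (by tauto), mul_zero]
      · simp
      · intro r _ hr
        refine sum_eq_zero fun q _ => ?_
        rw [if_neg (by tauto), mul_zero]
      · simp
    have g2 : ∑ r : Fin n, ∑ q : Fin n, ct f (th n r - th n q) * (-(1 / 4) *
      ((if r = K ∧ q = L then 1 else 0) + (if r = L ∧ q = K then 1 else 0) +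
      (if r = Fin.rev L ∧ q = Fin.rev K then 1 else 0) +
      (if r = Fin.rev K ∧ q = Fin.rev L then 1 else 0))) =
      -(1 / 4) * (ct f (th n K - th n L) + ct f (th n L - th n K) +
        ct f (th n (Fin.rev L) - th n (Fin.rev K)) + ct f (th n (Fin.rev K) - th n (Fin.rev L))) := by
      rw [← g K L, ← g L K, ← g (Fin.rev L) (Fin.rev K), ← g (Fin.rev K) (Fin.rev L),
        ← sum_add_distrib, ← sum_add_distrib, ← sum_add_distrib, mul_sum]
      refine sum_congr rfl fun r _ => ?_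
      rw [← sum_add_distrib, ← sum_add_distrib, ← sum_add_distrib, mul_sum]
      refine sum_congr rfl fun q _ => ?_
      ring
    rw [g2, th_rev, th_rev]
    have c1 : ct f (th n L - th n K) = ct f (th n K - th n L) := by
      rw [← ct_neg]; congr 1; ring
    have c2 : ct f (-th n L - -th n K) = ct f (th n K - th n L) := by
      congr 1; ring
    have c3 : ct f (-th n K - -th n L) = ct f (th n K - th n L) := by
      rw [← ct_neg]; congr 1; ring
    rw [c1, c2, c3]
    ring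
  rw [h4] at h1
  split_ifs at h1 ⊢
  · linarith
  · linarith

lemma ct_all (n : ℕ) {f : ℝ → ℝ} (hf : IsDensity f)
    (hc : ∀ a b : Fin n, avg n f a b = 1 / n) (K L : Fin n) (hKL : K ≠ L) :
    ct f (th n K - th n L) = if Even ((K : ℕ) + L) then -(1 / (n : ℝ)) else 0 := by
  have key : ∀ K L : Fin n, L < K →
      ct f (th n K - th n L) = if Even ((K : ℕ) + L) then -(1 / (n : ℝ)) else 0 := by
    intro K L hlt
    by_cases hs : (K : ℕ) + L + 2 ≤ n + 1
    · exact ct_of_const n hf hc K L hlt hs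
    · have h1 : Fin.rev K < Fin.rev L := Fin.rev_lt_rev.2 hlt
      have hK := K.2
      have hL := L.2
      have h2 : ((Fin.rev L : Fin n) : ℕ) + ((Fin.rev K : Fin n) : ℕ) + 2 ≤ n + 1 := by
        rw [Fin.val_rev, Fin.val_rev]; omega
      have h3 := ct_of_const n hf hc (Fin.rev L) (Fin.rev K) h1 h2
      rw [th_rev, th_rev] at h3
      have e : -th n L - -th n K = th n K - th n L := by ring
      rw [e] at h3
      rw [h3]
      have e2 : Even (((Fin.rev L : Fin n) : ℕ) + ((Fin.rev K : Fin n) : ℕ)) ↔ Even ((K : ℕ) + L) := by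
        rw [Fin.val_rev, Fin.val_rev, Nat.even_add, Nat.even_add, Nat.even_sub (by omega),
          Nat.even_sub (by omega), Nat.even_add_one, Nat.even_add_one]
        tauto
      simp only [e2]
  rcases lt_or_gt_of_ne hKL with h1 | h1
  · rw [← ct_neg, show -(th n K - th n L) = th n L - th n K by ring, key L K h1]
    have e : (L : ℕ) + K = K + L := by omega
    rw [e]
  · exact key K L h1

lemma V_rev (n : ℕ) (b r : Fin n) : V n (Fin.rev b) r = (-1) ^ (r : ℕ) * V n b r := by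
  unfold V
  have hb := b.2
  have e : (((Fin.rev b : Fin n) : ℕ) + 1 : ℕ) = n + 1 - ((b : ℕ) + 1) := by
    rw [Fin.val_rev]; omega
  rw [e, Nat.cast_sub (by omega)]
  have e2 : (((r : ℕ) + 1 : ℕ) : ℝ) * ((((n + 1 : ℕ) : ℝ) - (((b : ℕ) + 1 : ℕ) : ℝ)) * h (n + 1)) =
      (((r : ℕ) + 1 : ℕ) : ℝ) * Real.pi - (((r : ℕ) + 1 : ℕ) : ℝ) * ((((b : ℕ) + 1 : ℕ) : ℝ) * h (n + 1)) := by
    unfold h
    have : ((n + 1 : ℕ) : ℝ) ≠ 0 := by positivity
    field_simp
  rw [e2, Real.sin_sub, Real.sin_nat_mul_pi, Real.cos_nat_mul_pi, pow_succ]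
  ring

lemma V_orth' (n : ℕ) (a b : Fin n) : ∑ r : Fin n, V n a r * V n b r = if a = b then 1 else 0 := by
  rw [← V_orth n a b]
  refine sum_congr rfl fun r _ => ?_
  rw [V_symm n r a, V_symm n r b]

lemma V_orth_rev (n : ℕ) (a b : Fin n) :
    ∑ r : Fin n, (-1) ^ (r : ℕ) * (V n a r * V n b r) = if a = Fin.rev b then 1 else 0 := by
  rw [← V_orth' n a (Fin.rev b)]
  refine sum_congr rfl fun r _ => ?_
  rw [V_rev]
  ring

lemma V_four (n : ℕ) (a b : Fin n) :
    ∑ r : Fin n, (V n a r * V n b r) ^ 2 =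
      1 / ((n + 1 : ℕ) : ℝ) * (1 + (if a = b then 1 else 0) / 2 + (if a = Fin.rev b then 1 else 0) / 2) := by
  have h1 := S_eq n (2 * (((a : ℕ) + 1 : ℕ) : ℤ)) b b
  have ha := a.2
  have hb := b.2
  have d1 : dl (n + 1) (2 * (((a : ℕ) + 1 : ℕ) : ℤ) + (((b : ℕ) + 1 : ℕ) : ℤ) - (((b : ℕ) + 1 : ℕ) : ℤ)) = 0 := by
    rw [dl_of_lt _ _ (by push_cast; omega) (by push_cast; omega), if_neg (by push_cast; omega)]
  have d2 : dl (n + 1) (2 * (((a : ℕ) + 1 : ℕ) : ℤ) - (((b : ℕ) + 1 : ℕ) : ℤ) + (((b : ℕ) + 1 : ℕ) : ℤ)) = 0 := by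
    rw [dl_of_lt _ _ (by push_cast; omega) (by push_cast; omega), if_neg (by push_cast; omega)]
  have d3 : dl (n + 1) (2 * (((a : ℕ) + 1 : ℕ) : ℤ) + (((b : ℕ) + 1 : ℕ) : ℤ) + (((b : ℕ) + 1 : ℕ) : ℤ)) =
      if a = Fin.rev b then 1 else 0 := by
    rw [dl_of_lt' _ _ (by push_cast; omega) (by push_cast; omega)]
    have : (2 * (((a : ℕ) + 1 : ℕ) : ℤ) + (((b : ℕ) + 1 : ℕ) : ℤ) + (((b : ℕ) + 1 : ℕ) : ℤ) =
      2 * ((n + 1 : ℕ) : ℤ)) ↔ a = Fin.rev b := by
      rw [Fin.ext_iff, Fin.val_rev]; push_cast; omega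
    simp only [this]
  have d4 : dl (n + 1) (2 * (((a : ℕ) + 1 : ℕ) : ℤ) - (((b : ℕ) + 1 : ℕ) : ℤ) - (((b : ℕ) + 1 : ℕ) : ℤ)) =
      if a = b then 1 else 0 := by
    rw [dl_of_lt _ _ (by push_cast; omega) (by push_cast; omega)]
    have : (2 * (((a : ℕ) + 1 : ℕ) : ℤ) - (((b : ℕ) + 1 : ℕ) : ℤ) - (((b : ℕ) + 1 : ℕ) : ℤ) = 0) ↔ a = b := by
      rw [Fin.ext_iff]; push_cast; omega
    simp only [this]
  rw [d1, d2, d3, d4] at h1
  have h2 := V_orth n b b
  rw [if_pos rfl] at h2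
  have e : ∀ r : Fin n, (V n a r * V n b r) ^ 2 = 1 / ((n + 1 : ℕ) : ℝ) *
      (V n r b * V n r b - Real.cos (((2 * (((a : ℕ) + 1 : ℕ) : ℤ) : ℤ) : ℝ) *
        ((((r : ℕ) + 1 : ℕ) : ℝ) * h (n + 1))) * (V n r b * V n r b)) := by
    intro r
    have h3 := V_mul n r a a
    have h4 : V n a r = V n r a := V_symm n a r
    have h5 : V n b r = V n r b := V_symm n b r
    have h6 : Real.cos (((2 * (((a : ℕ) + 1 : ℕ) : ℤ) : ℤ) : ℝ) * ((((r : ℕ) + 1 : ℕ) : ℝ) * h (n + 1))) =
        1 - 2 * Real.sin (((((a : ℕ) + 1 : ℕ) : ℤ) : ℝ) * ((((r : ℕ) + 1 : ℕ) : ℝ) * h (n + 1))) ^ 2 := by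
      rw [← Real.cos_sq_add_sin_sq (((((a : ℕ) + 1 : ℕ) : ℤ) : ℝ) * ((((r : ℕ) + 1 : ℕ) : ℝ) * h (n + 1)))]
      rw [show (((2 * (((a : ℕ) + 1 : ℕ) : ℤ) : ℤ) : ℝ) * ((((r : ℕ) + 1 : ℕ) : ℝ) * h (n + 1))) =
        2 * ((((((a : ℕ) + 1 : ℕ) : ℤ) : ℝ) * ((((r : ℕ) + 1 : ℕ) : ℝ) * h (n + 1)))) by push_cast; ring,
        Real.cos_two_mul, Real.cos_sq']
      ring
    rw [h6, h4, h5, mul_pow, pow_two (V n r a), h3]
    ring
  rw [sum_congr rfl fun r _ => e r, ← mul_sum, sum_sub_distrib, h2, h1]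
  ring

lemma ct_zero {f : ℝ → ℝ} (hf : IsDensity f) : ct f 0 = 1 := by
  unfold ct
  simp only [zero_mul, Real.cos_zero, mul_one]
  exact hf.int

lemma const_of_ct (n : ℕ) (hn : 0 < n) {f : ℝ → ℝ} (hf : IsDensity f)
    (hc : ∀ K L : Fin n, K ≠ L →
      ct f (th n K - th n L) = if Even ((K : ℕ) + L) then -(1 / (n : ℝ)) else 0) (a b : Fin n) :
    avg n f a b = 1 / n := by
  have hn' : (n : ℝ) ≠ 0 := by positivity
  rw [avg_apply n hf]
  have e : ∀ r q : Fin n, ct f (th n r - th n q) * ((V n a r * V n a q) * (V n b r * V n b q)) =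
      (if r = q then (1 + 1 / (n : ℝ)) * (V n a r * V n b r) ^ 2 else 0) -
      1 / (2 * n) * ((V n a r * V n b r) * (V n a q * V n b q)) -
      1 / (2 * n) * (((-1) ^ (r : ℕ) * (V n a r * V n b r)) * ((-1) ^ (q : ℕ) * (V n a q * V n b q))) := by
    intro r q
    by_cases hrq : r = q
    · subst hrq
      rw [sub_self, ct_zero hf, if_pos rfl]
      have : ((-1 : ℝ) ^ (r : ℕ)) * (-1) ^ (r : ℕ) = 1 := by
        rw [← mul_pow]; norm_num
      linear_combination (1 / (2 * n)) * (V n a r * V n b r) ^ 2 * this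
    · rw [hc r q hrq, if_neg hrq]
      split_ifs with h1
      · have : ((-1 : ℝ) ^ (r : ℕ)) * (-1) ^ (q : ℕ) = 1 := by
          rw [← pow_add]; exact h1.neg_one_pow
        linear_combination (1 / (2 * n)) * ((V n a r * V n b r) * (V n a q * V n b q)) * this
      · have : ((-1 : ℝ) ^ (r : ℕ)) * (-1) ^ (q : ℕ) = -1 := by
          rw [← pow_add]; exact (Nat.not_even_iff_odd.1 h1).neg_one_pow
        linear_combination (1 / (2 * n)) * ((V n a r * V n b r) * (V n a q * V n b q)) * this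
  simp only [e, sum_sub_distrib, ← mul_sum, ← sum_mul]
  rw [V_orth', V_orth_rev]
  have e2 : ∑ r : Fin n, ∑ q : Fin n, (if r = q then (1 + 1 / (n : ℝ)) * (V n a r * V n b r) ^ 2 else 0) =
      (1 + 1 / (n : ℝ)) * ∑ r : Fin n, (V n a r * V n b r) ^ 2 := by
    rw [mul_sum]
    refine sum_congr rfl fun r _ => ?_
    rw [sum_ite_eq]
    simp
  rw [e2, V_four]
  push_cast
  have hn1 : (n : ℝ) + 1 ≠ 0 := by positivity
  split_ifs <;> field_simp <;> ring

/-! ### Rank -/

lemma avg_symm (n : ℕ) {f : ℝ → ℝ} (hf : IsDensity f) (a b : Fin n) :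
    avg n f a b = avg n f b a := by
  rw [avg_apply n hf, avg_apply n hf]
  refine sum_congr rfl fun r _ => sum_congr rfl fun q _ => ?_
  ring

lemma avg_row (n : ℕ) {f : ℝ → ℝ} (hf : IsDensity f) (a : Fin n) :
    ∑ b, avg n f a b = 1 := by
  simp only [avg_apply n hf]
  rw [sum_comm]
  have : ∀ r : Fin n, ∑ b : Fin n, ∑ q : Fin n,
      ct f (th n r - th n q) * ((V n a r * V n a q) * (V n b r * V n b q)) = V n a r * V n a r := by
    intro r
    rw [sum_comm]
    have e : ∀ q : Fin n, ∑ b : Fin n, ct f (th n r - th n q) * ((V n a r * V n a q) * (V n b r * V n b q)) =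
        if r = q then V n a r * V n a r else 0 := by
      intro q
      rw [← mul_sum, ← mul_sum, V_orth]
      split_ifs with h1
      · subst h1; rw [sub_self, ct_zero hf]; ring
      · ring
    rw [sum_congr rfl fun q _ => e q, sum_ite_eq]
    simp
  rw [sum_congr rfl fun r _ => this r, V_orth', if_pos rfl]

lemma rank_iff (n : ℕ) (hn : 0 < n) {f : ℝ → ℝ} (hf : IsDensity f) :
    (avg n f).rank = 1 ↔ ∀ a b : Fin n, avg n f a b = 1 / n := by
  have hn' : (n : ℝ) ≠ 0 := by positivity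
  have hone : (avg n f).mulVecLin (fun _ => (1 : ℝ)) = fun _ => 1 := by
    ext a
    rw [Matrix.mulVecLin_apply, Matrix.mulVec, dotProduct]
    simp only [mul_one]
    exact avg_row n hf a
  let v : LinearMap.range (avg n f).mulVecLin := ⟨fun _ => 1, ⟨_, hone⟩⟩
  have hv : v ≠ 0 := by
    intro h0
    have := congrArg Subtype.val h0
    have := congrFun this ⟨0, hn⟩
    simp [v] at this
  have hcol : ∀ b, (avg n f).mulVecLin (Pi.single b 1) = fun a => avg n f a b := by
    intro b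
    ext a
    rw [Matrix.mulVecLin_apply, Matrix.mulVec_single_one]
    rfl
  unfold Matrix.rank
  rw [finrank_eq_one_iff_of_nonzero' v hv]
  constructor
  · intro hr
    have h1 : ∀ b, ∃ c : ℝ, ∀ a, avg n f a b = c := by
      intro b
      obtain ⟨c, hc⟩ := hr ⟨_, ⟨Pi.single b 1, rfl⟩⟩
      refine ⟨c, fun a => ?_⟩
      have := congrArg Subtype.val hc
      have := congrFun this a
      simp only [v] at this
      rw [hcol] at this
      simp at this
      exact this.symm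
    choose c hc using h1
    have h2 : ∀ a b, c a = c b := by
      intro a b
      rw [← hc a b, ← hc b a, avg_symm n hf]
    intro a b
    have h3 := avg_row n hf a
    have h4 : ∀ b', avg n f a b' = avg n f a b := by
      intro b'
      rw [hc, hc]; exact h2 _ _
    rw [sum_congr rfl fun b' _ => h4 b'] at h3
    simp at h3
    field_simp
    linarith
  · intro hc w
    obtain ⟨w, ⟨u, rfl⟩⟩ := w
    refine ⟨(∑ b, u b) / n, ?_⟩
    apply Subtype.ext
    ext a
    simp only [v]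
    rw [Matrix.mulVecLin_apply, Matrix.mulVec, dotProduct]
    simp only [hc]
    rw [← mul_sum]
    simp
    ring

lemma rank_pos (n : ℕ) (hn : 0 < n) {f : ℝ → ℝ} (hf : IsDensity f) : (avg n f).rank ≠ 0 := by
  intro h0
  unfold Matrix.rank at h0
  have hone : (avg n f).mulVecLin (fun _ => (1 : ℝ)) = fun _ => 1 := by
    ext a
    rw [Matrix.mulVecLin_apply, Matrix.mulVec, dotProduct]
    simp only [mul_one]
    exact avg_row n hf a
  have h1 : LinearMap.range (avg n f).mulVecLin = ⊥ := Submodule.finrank_eq_zero.1 h0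
  have h2 : (fun _ => (1 : ℝ) : Fin n → ℝ) ∈ LinearMap.range (avg n f).mulVecLin := ⟨_, hone⟩
  rw [h1, Submodule.mem_bot] at h2
  have := congrFun h2 ⟨0, hn⟩
  simp at this

/-! ### Coincidences -/

/-- eigenvalue with natural index -/
lemma th_mk (n k : ℕ) (hk : k < n) : th n ⟨k, hk⟩ = 2 * Real.cos (((k + 1 : ℕ) : ℝ) * h (n + 1)) := rfl

lemma no_rank_one (n : ℕ) (hn : 0 < n) {f : ℝ → ℝ} (hf : IsDensity f) (K L K' L' : ℕ)
    (hK : K < n) (hL : L < n) (hK' : K' < n) (hL' : L' < n) (h1 : K ≠ L) (h2 : K' ≠ L')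
    (he : Even (K + L)) (ho : ¬ Even (K' + L'))
    (hc : th n ⟨K, hK⟩ - th n ⟨L, hL⟩ = th n ⟨K', hK'⟩ - th n ⟨L', hL'⟩) :
    2 ≤ (avg n f).rank := by
  have h0 := rank_pos n hn hf
  by_contra h3
  have h4 : (avg n f).rank = 1 := by omega
  rw [rank_iff n hn hf] at h4
  have e1 := ct_all n hf h4 ⟨K, hK⟩ ⟨L, hL⟩ (by simpa using h1)
  have e2 := ct_all n hf h4 ⟨K', hK'⟩ ⟨L', hL'⟩ (by simpa using h2)
  rw [hc, e2] at e1
  simp only [he, ho, if_true, if_false] at e1
  have hn' : (0 : ℝ) < n := by exact_mod_cast hn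
  have : 0 < 1 / (n : ℝ) := by positivity
  linarith

lemma bad_six (n j : ℕ) (hj : 2 ≤ j) (hn : n + 1 = 6 * j) {f : ℝ → ℝ} (hf : IsDensity f) :
    2 ≤ (avg n f).rank := by
  refine no_rank_one n (by omega) hf j (j - 2) (3 * j - 1) (3 * j - 2) (by omega) (by omega)
    (by omega) (by omega) (by omega) (by omega) ?_ ?_ ?_
  · have : j + (j - 2) = 2 * (j - 1) := by omega
    rw [this]; exact even_two_mul _
  · have : 3 * j - 1 + (3 * j - 2) = 2 * (3 * j - 2) + 1 := by omega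
    rw [this, Nat.not_even_iff_odd]; exact odd_two_mul_add_one _
  · rw [th_mk, th_mk, th_mk, th_mk]
    have hj0 : (j : ℝ) ≠ 0 := by positivity
    set x : ℝ := Real.pi / (6 * j) with hx
    have hh : h (n + 1) = x := by
      unfold h; rw [hn]; push_cast; rfl
    rw [hh]
    have e1 : ((j + 1 : ℕ) : ℝ) * x = Real.pi / 3 - ((j : ℝ) - 1) * x := by
      rw [hx]; push_cast; field_simp; ring
    have e2 : ((j - 2 + 1 : ℕ) : ℝ) * x = ((j : ℝ) - 1) * x := by
      have : j - 2 + 1 = j - 1 := by omega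
      rw [this, Nat.cast_sub (by omega)]; push_cast; rfl
    have e3 : ((3 * j - 1 + 1 : ℕ) : ℝ) * x = Real.pi / 2 := by
      have : 3 * j - 1 + 1 = 3 * j := by omega
      rw [this, hx]; push_cast; field_simp; norm_num
    have e4 : ((3 * j - 2 + 1 : ℕ) : ℝ) * x = Real.pi / 3 + ((j : ℝ) - 1) * x := by
      have : 3 * j - 2 + 1 = 3 * j - 1 := by omega
      rw [this, Nat.cast_sub (by omega), hx]; push_cast; field_simp; ring
    rw [e1, e2, e3, e4, Real.cos_sub, Real.cos_add, Real.cos_pi_div_three, Real.cos_pi_div_two]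
    ring

lemma cos_id_fifteen : Real.cos (Real.pi / 5) - Real.cos (Real.pi / 15) =
    Real.cos (Real.pi / 3) - Real.cos (4 * Real.pi / 15) := by
  have h1 : Real.cos (4 * Real.pi / 15) = Real.cos (Real.pi / 6 + Real.pi / 10) := by congr 1; ring
  have h2 : Real.cos (Real.pi / 15) = Real.cos (Real.pi / 6 - Real.pi / 10) := by congr 1; ring
  have h3 : Real.sin (Real.pi / 10) = Real.cos (2 * (Real.pi / 5)) := by
    rw [← Real.cos_pi_div_two_sub]; congr 1; ring
  rw [h1, h2, Real.cos_add, Real.cos_sub, Real.sin_pi_div_six, Real.cos_pi_div_three, h3,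
    Real.cos_two_mul, Real.cos_pi_div_five]
  have h5 : √(5 : ℝ) * √5 = 5 := Real.mul_self_sqrt (by norm_num)
  linear_combination (-1 / 8) * h5

lemma cos_id_seven : Real.cos (Real.pi / 7) - Real.cos (2 * Real.pi / 7) =
    Real.cos (Real.pi / 3) - Real.cos (3 * Real.pi / 7) := by
  have hs : Real.sin (Real.pi / 7) ≠ 0 :=
    (Real.sin_pos_of_pos_of_lt_pi (by positivity) (by linarith [Real.pi_pos])).ne'
  have h1 : Real.sin (2 * Real.pi / 7) = 2 * Real.sin (Real.pi / 7) * Real.cos (Real.pi / 7) := by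
    rw [← Real.sin_two_mul]; congr 1; ring
  have h2 : Real.sin (3 * Real.pi / 7) = Real.sin (2 * Real.pi / 7) * Real.cos (Real.pi / 7) +
      Real.cos (2 * Real.pi / 7) * Real.sin (Real.pi / 7) := by
    rw [← Real.sin_add]; congr 1; ring
  have h2' : Real.sin (Real.pi / 7) = Real.sin (2 * Real.pi / 7) * Real.cos (Real.pi / 7) -
      Real.cos (2 * Real.pi / 7) * Real.sin (Real.pi / 7) := by
    rw [← Real.sin_sub]; congr 1; ring
  have h3 : Real.sin (3 * Real.pi / 7) = Real.sin (3 * Real.pi / 7) * Real.cos (Real.pi / 7) +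
      Real.cos (3 * Real.pi / 7) * Real.sin (Real.pi / 7) := by
    rw [← Real.sin_add, ← Real.sin_pi_sub]; congr 1; ring
  have h3' : Real.sin (2 * Real.pi / 7) = Real.sin (3 * Real.pi / 7) * Real.cos (Real.pi / 7) -
      Real.cos (3 * Real.pi / 7) * Real.sin (Real.pi / 7) := by
    rw [← Real.sin_sub]; congr 1; ring
  rw [Real.cos_pi_div_three]
  have : 2 * Real.sin (Real.pi / 7) * (Real.cos (Real.pi / 7) - Real.cos (2 * Real.pi / 7)
      - (1 / 2 - Real.cos (3 * Real.pi / 7))) = 0 := by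
    linear_combination -h1 + h2 - h2' - h3 + h3'
  rcases mul_eq_zero.1 this with h4 | h4
  · exact absurd h4 (by simpa using hs)
  · linarith

lemma bad_fifteen (n j : ℕ) (hj : Odd j) (hn : n + 1 = 15 * j) {f : ℝ → ℝ} (hf : IsDensity f) :
    2 ≤ (avg n f).rank := by
  obtain ⟨i, hi⟩ := hj
  refine no_rank_one n (by omega) hf (3 * j - 1) (j - 1) (5 * j - 1) (4 * j - 1) (by omega) (by omega)
    (by omega) (by omega) (by omega) (by omega) ?_ ?_ ?_
  · have : 3 * j - 1 + (j - 1) = 2 * (2 * j - 1) := by omega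
    rw [this]; exact even_two_mul _
  · have : 5 * j - 1 + (4 * j - 1) = 2 * (9 * i + 3) + 1 := by omega
    rw [this, Nat.not_even_iff_odd]; exact odd_two_mul_add_one _
  · rw [th_mk, th_mk, th_mk, th_mk]
    have hj0 : (j : ℝ) ≠ 0 := by
      have : 0 < j := by omega
      positivity
    have hh : h (n + 1) = Real.pi / (15 * j) := by
      unfold h; rw [hn]; push_cast; rfl
    rw [hh]
    have e1 : ((3 * j - 1 + 1 : ℕ) : ℝ) * (Real.pi / (15 * j)) = Real.pi / 5 := by
      have : 3 * j - 1 + 1 = 3 * j := by omega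
      rw [this]; push_cast; field_simp; norm_num
    have e2 : ((j - 1 + 1 : ℕ) : ℝ) * (Real.pi / (15 * j)) = Real.pi / 15 := by
      have : j - 1 + 1 = j := by omega
      rw [this]; field_simp
    have e3 : ((5 * j - 1 + 1 : ℕ) : ℝ) * (Real.pi / (15 * j)) = Real.pi / 3 := by
      have : 5 * j - 1 + 1 = 5 * j := by omega
      rw [this]; push_cast; field_simp; norm_num
    have e4 : ((4 * j - 1 + 1 : ℕ) : ℝ) * (Real.pi / (15 * j)) = 4 * Real.pi / 15 := by
      have : 4 * j - 1 + 1 = 4 * j := by omega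
      rw [this]; push_cast; field_simp
    rw [e1, e2, e3, e4]
    linear_combination 2 * cos_id_fifteen

lemma bad_twentyone (n j : ℕ) (hj : Odd j) (hn : n + 1 = 21 * j) {f : ℝ → ℝ} (hf : IsDensity f) :
    2 ≤ (avg n f).rank := by
  obtain ⟨i, hi⟩ := hj
  refine no_rank_one n (by omega) hf (7 * j - 1) (9 * j - 1) (3 * j - 1) (6 * j - 1) (by omega) (by omega)
    (by omega) (by omega) (by omega) (by omega) ?_ ?_ ?_
  · have : 7 * j - 1 + (9 * j - 1) = 2 * (8 * j - 1) := by omega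
    rw [this]; exact even_two_mul _
  · have : 3 * j - 1 + (6 * j - 1) = 2 * (9 * i + 3) + 1 := by omega
    rw [this, Nat.not_even_iff_odd]; exact odd_two_mul_add_one _
  · rw [th_mk, th_mk, th_mk, th_mk]
    have hj0 : (j : ℝ) ≠ 0 := by
      have : 0 < j := by omega
      positivity
    have hh : h (n + 1) = Real.pi / (21 * j) := by
      unfold h; rw [hn]; push_cast; rfl
    rw [hh]
    have e1 : ((7 * j - 1 + 1 : ℕ) : ℝ) * (Real.pi / (21 * j)) = Real.pi / 3 := by
      have : 7 * j - 1 + 1 = 7 * j := by omega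
      rw [this]; push_cast; field_simp; norm_num
    have e2 : ((9 * j - 1 + 1 : ℕ) : ℝ) * (Real.pi / (21 * j)) = 3 * Real.pi / 7 := by
      have : 9 * j - 1 + 1 = 9 * j := by omega
      rw [this]; push_cast; field_simp; norm_num
    have e3 : ((3 * j - 1 + 1 : ℕ) : ℝ) * (Real.pi / (21 * j)) = Real.pi / 7 := by
      have : 3 * j - 1 + 1 = 3 * j := by omega
      rw [this]; push_cast; field_simp; norm_num
    have e4 : ((6 * j - 1 + 1 : ℕ) : ℝ) * (Real.pi / (21 * j)) = 2 * Real.pi / 7 := by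
      have : 6 * j - 1 + 1 = 6 * j := by omega
      rw [this]; push_cast; field_simp; norm_num
    rw [e1, e2, e3, e4]
    linear_combination -2 * cos_id_seven

lemma bad_all (n : ℕ) (hn : 6 ≤ n) (hd : 6 ∣ n + 1 ∨ 15 ∣ n + 1 ∨ 21 ∣ n + 1) {f : ℝ → ℝ}
    (hf : IsDensity f) : 2 ≤ (avg n f).rank := by
  by_cases h6 : 6 ∣ n + 1
  · obtain ⟨j, hj⟩ := h6
    exact bad_six n j (by omega) hj hf
  · rcases hd with hd | hd | hd
    · exact absurd hd h6
    · obtain ⟨j, hj⟩ := hd
      refine bad_fifteen n j ?_ hj hf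
      rw [← Nat.not_even_iff_odd]
      rintro ⟨i, hi⟩
      exact h6 ⟨5 * i, by omega⟩
    · obtain ⟨j, hj⟩ := hd
      refine bad_twentyone n j ?_ hj hf
      rw [← Nat.not_even_iff_odd]
      rintro ⟨i, hi⟩
      exact h6 ⟨7 * i, by omega⟩

/-! ### Kernels and trigonometric polynomials -/

/-- exponential -/
noncomputable def ex (x t : ℝ) : ℂ := Complex.exp (((x * t : ℝ) : ℂ) * Complex.I)

/-- Fourier transform of a real function -/
noncomputable def ft (f : ℝ → ℝ) (x : ℝ) : ℂ := ∫ t, (f t : ℂ) * ex x t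

lemma ex_norm (x t : ℝ) : ‖ex x t‖ = 1 := by
  unfold ex; exact Complex.norm_exp_ofReal_mul_I _

lemma ex_cont (x : ℝ) : Continuous (ex x) := by unfold ex; fun_prop

lemma ex_add (x y t : ℝ) : ex x t * ex y t = ex (x + y) t := by
  unfold ex
  rw [← Complex.exp_add]
  congr 1
  push_cast; ring

lemma ex_add' (x s t : ℝ) : ex x s * ex x t = ex x (s + t) := by
  unfold ex
  rw [← Complex.exp_add]
  congr 1
  push_cast; ring

lemma int_ex {f : ℝ → ℝ} (hf : Integrable f) (x : ℝ) :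
    Integrable (fun t => (f t : ℂ) * ex x t) := by
  have h1 : Integrable (fun t => (f t : ℂ)) := hf.ofReal
  refine h1.mono (h1.aestronglyMeasurable.mul (ex_cont x).aestronglyMeasurable)
    (Filter.Eventually.of_forall fun t => ?_)
  rw [norm_mul, ex_norm, mul_one]

lemma ft_zero (f : ℝ → ℝ) : ft f 0 = ((∫ t, f t : ℝ) : ℂ) := by
  unfold ft
  rw [← integral_complex_ofReal]
  congr 1
  ext t
  simp [ex]

lemma ft_re {f : ℝ → ℝ} (hf : Integrable f) (x : ℝ) : (ft f x).re = ct f x := by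
  unfold ft ct
  have h1 := Complex.reCLM.integral_comp_comm (int_ex hf x)
  simp only [Complex.reCLM_apply] at h1
  rw [← h1]
  congr 1
  ext t
  unfold ex
  rw [Complex.exp_mul_I, ← Complex.ofReal_cos, ← Complex.ofReal_sin, Complex.re_ofReal_mul,
    Complex.add_re, Complex.ofReal_re, Complex.mul_I_re, Complex.ofReal_im, neg_zero, add_zero]

open scoped Convolution in
lemma ft_conv {b K : ℝ → ℝ} (hb : Integrable b) (hK : Integrable K) (x : ℝ) :
    ft (b ⋆[ContinuousLinearMap.mul ℝ ℝ, volume] K) x = ft b x * ft K x := by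
  have h1 := integral_convolution (ContinuousLinearMap.mul ℂ ℂ) (int_ex hb x) (int_ex hK x)
  simp only [ContinuousLinearMap.mul_apply'] at h1
  unfold ft
  rw [← h1]
  congr 1
  ext t
  rw [convolution_mul, convolution_def, ← integral_complex_ofReal, ← integral_mul_const]
  congr 1
  ext s
  simp only [ContinuousLinearMap.mul_apply']
  have : ex x t = ex x s * ex x (t - s) := by rw [ex_add']; congr 1; ring
  rw [this]
  push_cast
  ring

/-- box -/
noncomputable def box (T : ℝ) (t : ℝ) : ℝ := Set.indicator (Set.Ioc 0 T) (fun _ => 1 / T) t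

lemma box_int (T : ℝ) : Integrable (box T) := by
  unfold box
  exact (integrable_indicator_iff measurableSet_Ioc).2 (integrableOn_const (by simp))

lemma box_one {T : ℝ} (hT : 0 < T) : ∫ t, box T t = 1 := by
  unfold box
  rw [integral_indicator measurableSet_Ioc, ← intervalIntegral.integral_of_le hT.le]
  simp
  field_simp

lemma box_nonneg {T : ℝ} (hT : 0 < T) (t : ℝ) : 0 ≤ box T t := by
  unfold box
  exact Set.indicator_nonneg (fun _ _ => by positivity) _

lemma box_ft {x : ℝ} (hx : x ≠ 0) : ft (box (2 * Real.pi / |x|)) x = 0 := by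
  have hx' : 0 < |x| := abs_pos.2 hx
  have hT : 0 < 2 * Real.pi / |x| := by positivity
  unfold ft box
  have e : ∀ t : ℝ, ((Set.indicator (Set.Ioc 0 (2 * Real.pi / |x|))
      (fun _ => 1 / (2 * Real.pi / |x|)) t : ℝ) : ℂ) * ex x t =
      Set.indicator (Set.Ioc 0 (2 * Real.pi / |x|))
        (fun t => ((1 / (2 * Real.pi / |x|) : ℝ) : ℂ) * Complex.exp ((x * Complex.I) * t)) t := by
    intro t
    by_cases ht : t ∈ Set.Ioc 0 (2 * Real.pi / |x|)
    · rw [Set.indicator_of_mem ht, Set.indicator_of_mem ht]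
      unfold ex
      congr 2
      push_cast; ring
    · rw [Set.indicator_of_notMem ht, Set.indicator_of_notMem ht]; simp
  simp_rw [e]
  rw [integral_indicator measurableSet_Ioc, ← intervalIntegral.integral_of_le hT.le,
    intervalIntegral.integral_const_mul, integral_exp_mul_complex (by simp [hx])]
  have e2 : Complex.exp (x * Complex.I * ((2 * Real.pi / |x| : ℝ) : ℂ)) = 1 := by
    rw [Complex.exp_eq_one_iff]
    rcases abs_choice x with h1 | h1
    · refine ⟨1, ?_⟩
      rw [h1]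
      have : (x : ℂ) ≠ 0 := by exact_mod_cast hx
      push_cast
      field_simp
    · refine ⟨-1, ?_⟩
      rw [h1]
      have : (x : ℂ) ≠ 0 := by exact_mod_cast hx
      push_cast
      field_simp
  rw [e2]
  simp

open scoped Convolution in
/-- Densities whose Fourier transform vanishes at a given finite set. -/
lemma kernel (F : Finset ℝ) (h0 : (0 : ℝ) ∉ F) : ∃ K : ℝ → ℝ, Integrable K ∧ (∀ t, 0 ≤ K t) ∧
    ∫ t, K t = 1 ∧ ∀ x ∈ F, ft K x = 0 := by
  induction F using Finset.induction_on with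
  | empty =>
    refine ⟨box 1, box_int 1, box_nonneg one_pos, box_one one_pos, ?_⟩
    simp
  | insert x F hx ih =>
    have hx0 : x ≠ 0 := by
      rintro rfl
      exact h0 (mem_insert_self _ _)
    obtain ⟨K, hKi, hK0, hK1, hKF⟩ := ih (fun h => h0 (mem_insert_of_mem h))
    have hT : 0 < 2 * Real.pi / |x| := by
      have := abs_pos.2 hx0
      positivity
    have hb := box_int (2 * Real.pi / |x|)
    refine ⟨box (2 * Real.pi / |x|) ⋆[ContinuousLinearMap.mul ℝ ℝ, volume] K,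
      hb.integrable_convolution _ hKi, ?_, ?_, ?_⟩
    · intro t
      rw [convolution_mul]
      exact integral_nonneg fun s => mul_nonneg (box_nonneg hT s) (hK0 _)
    · rw [integral_convolution _ hb hKi, hK1, box_one hT]
      simp
    · intro y hy
      rw [ft_conv hb hKi]
      rcases mem_insert.1 hy with rfl | hy
      · rw [box_ft hx0, zero_mul]
      · rw [hKF y hy, mul_zero]

/-- A density from a nonnegative trigonometric polynomial. -/
lemma trig_density {ι : Type*} (S : Finset ι) (w : ι → ℂ) (μ : ι → ℝ) (H : ℝ → ℝ)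
    (hH : ∀ t, (H t : ℂ) = ∑ x ∈ S, w x * ex (μ x) t) (hpos : ∀ t, 0 ≤ H t) (Λ : Finset ℝ)
    (h1 : (∑ x ∈ S, if μ x + 0 = 0 then w x else 0) = 1) :
    ∃ f : ℝ → ℝ, IsDensity f ∧ ∀ y ∈ Λ, ft f y = ∑ x ∈ S, if μ x + y = 0 then w x else 0 := by
  classical
  set F : Finset ℝ := ((S ×ˢ (insert 0 Λ)).image (fun p => μ p.1 + p.2)).erase 0 with hF
  obtain ⟨K, hKi, hK0, hK1, hKF⟩ := kernel F (by simp [hF])
  have hft : ∀ y ∈ insert 0 Λ, ∀ x ∈ S, ft K (μ x + y) = if μ x + y = 0 then 1 else 0 := by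
    intro y hy x hx
    split_ifs with h2
    · rw [h2, ft_zero, hK1]; simp
    · apply hKF
      rw [hF, mem_erase]
      refine ⟨h2, mem_image.2 ⟨(x, y), ?_, rfl⟩⟩
      exact mem_product.2 ⟨hx, hy⟩
  have hKH : ∀ (y t : ℝ), ((K t * H t : ℝ) : ℂ) * ex y t = ∑ x ∈ S, w x * ((K t : ℂ) * ex (μ x + y) t) := by
    intro y t
    push_cast
    rw [hH, mul_sum, sum_mul]
    refine sum_congr rfl fun x _ => ?_
    rw [← ex_add]
    ring
  have hmain : ∀ y ∈ insert 0 Λ, ft (fun t => K t * H t) y = ∑ x ∈ S, if μ x + y = 0 then w x else 0 := by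
    intro y hy
    unfold ft
    simp_rw [hKH]
    rw [integral_finsetSum _ (fun x _ => (int_ex hKi _).const_mul _)]
    refine sum_congr rfl fun x hx => ?_
    rw [integral_const_mul]
    have := hft y hy x hx
    unfold ft at this
    rw [this]
    split_ifs <;> simp
  have hInt : Integrable (fun t => K t * H t) := by
    have h2 : Integrable (fun t => ((K t * H t : ℝ) : ℂ) * ex 0 t) := by
      simp_rw [hKH]
      exact integrable_finsetSum _ (fun x _ => (int_ex hKi _).const_mul _)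
    have h3 : Integrable (fun t => ((K t * H t : ℝ) : ℂ)) := by
      refine h2.congr (Filter.Eventually.of_forall fun t => ?_)
      simp [ex]
    have h4 := h3.re
    refine h4.congr (Filter.Eventually.of_forall fun t => ?_)
    simp
  refine ⟨fun t => K t * H t, ⟨hInt.aestronglyMeasurable.aemeasurable,
    fun t => mul_nonneg (hK0 t) (hpos t), ?_⟩, fun y hy => hmain y (mem_insert_of_mem hy)⟩
  have := hmain 0 (mem_insert_self _ _)
  rw [ft_zero, h1] at this
  exact_mod_cast this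

/-! ### Riesz products over a round-robin tournament -/

/-- the weight of the exponent `e` in the factor `x` of round `r` -/
noncomputable def W (m : ℕ) (r x : ZMod m) (e : ℤ) : ℂ :=
  if e = 0 then 1 else if x.val < (r - x).val then -(1 / 2) else 0

/-- the `x`-th factor of round `r` -/
noncomputable def fac (m : ℕ) (c : ZMod m → ℝ) (r x : ZMod m) (t : ℝ) : ℝ :=
  if x.val < (r - x).val then 1 - Real.cos ((c x - c (r - x)) * t) else 1

lemma fac_nonneg (m : ℕ) (c : ZMod m → ℝ) (r x : ZMod m) (t : ℝ) : 0 ≤ fac m c r x t := by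
  unfold fac
  split_ifs
  · have := Real.cos_le_one ((c x - c (r - x)) * t)
    linarith
  · exact zero_le_one

lemma fac_eq (m : ℕ) (c : ZMod m → ℝ) (r x : ZMod m) (t : ℝ) :
    (fac m c r x t : ℂ) = ∑ e ∈ ({-1, 0, 1} : Finset ℤ), W m r x e * ex (e * (c x - c (r - x))) t := by
  rw [sum_insert (by decide), sum_insert (by decide), sum_singleton]
  by_cases h1 : x.val < (r - x).val
  · have w1 : W m r x (-1) = -(1 / 2) := by simp [W, h1]
    have w2 : W m r x 0 = 1 := by simp [W]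
    have w3 : W m r x 1 = -(1 / 2) := by simp [W, h1]
    rw [w1, w2, w3]
    unfold fac ex
    rw [if_pos h1]
    have e1 : ((((-1 : ℤ) : ℝ) * (c x - c (r - x)) * t : ℝ) : ℂ) * Complex.I =
      -(((c x - c (r - x)) * t : ℝ) : ℂ) * Complex.I := by push_cast; ring
    have e2 : ((((1 : ℤ) : ℝ) * (c x - c (r - x)) * t : ℝ) : ℂ) * Complex.I =
      (((c x - c (r - x)) * t : ℝ) : ℂ) * Complex.I := by push_cast; ring
    have e3 : ((((0 : ℤ) : ℝ) * (c x - c (r - x)) * t : ℝ) : ℂ) * Complex.I = 0 := by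
      push_cast; ring
    rw [e1, e2, e3, Complex.exp_zero, Complex.ofReal_sub, Complex.ofReal_cos, Complex.cos]
    push_cast
    ring
  · have w1 : W m r x (-1) = 0 := by simp [W, h1]
    have w2 : W m r x 0 = 1 := by simp [W]
    have w3 : W m r x 1 = 0 := by simp [W, h1]
    rw [w1, w2, w3]
    unfold fac ex
    rw [if_neg h1]
    simp

lemma riesz (m : ℕ) [NeZero m] (c : ZMod m → ℝ)
    (hind : ∀ a : ZMod m → ℤ, ∑ x, (a x : ℝ) * c x = 0 → ∀ x, a x = 0) (r : ZMod m) (Λ : Finset ℝ) :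
    ∃ f : ℝ → ℝ, IsDensity f ∧ ∀ v : ZMod m → ℤ, (∑ x, (v x : ℝ) * c x) ∈ Λ →
      ft f (∑ x, (v x : ℝ) * c x) = ∑ ε ∈ Fintype.piFinset (fun _ : ZMod m => ({-1, 0, 1} : Finset ℤ)),
        if (∀ x, ε x - ε (r - x) + v x = 0) then ∏ x, W m r x (ε x) else 0 := by
  classical
  have hre : ∀ ε : ZMod m → ℤ, ∑ x, (ε x : ℝ) * (c x - c (r - x)) =
      ∑ x, ((ε x - ε (r - x) : ℤ) : ℝ) * c x := by
    intro ε
    have h1 : ∑ x, (ε x : ℝ) * c (r - x) = ∑ x, (ε (r - x) : ℝ) * c x := by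
      rw [← Equiv.sum_comp (Equiv.subLeft r)]
      refine sum_congr rfl fun x _ => ?_
      simp
    simp only [mul_sub, sum_sub_distrib, h1]
    push_cast
    simp only [sub_mul, sum_sub_distrib]
  have hiff : ∀ (ε v : ZMod m → ℤ), (∑ x, (ε x : ℝ) * (c x - c (r - x))) + ∑ x, (v x : ℝ) * c x = 0 ↔
      ∀ x, ε x - ε (r - x) + v x = 0 := by
    intro ε v
    rw [hre, ← sum_add_distrib]
    constructor
    · intro h1
      apply hind
      rw [← h1]
      refine sum_congr rfl fun x _ => ?_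
      push_cast; ring
    · intro h1
      refine sum_eq_zero fun x _ => ?_
      have := h1 x
      have h2 : ((ε x - ε (r - x) : ℤ) : ℝ) + (v x : ℝ) = 0 := by exact_mod_cast this
      linear_combination c x * h2
  have hH : ∀ t, ((∏ x, fac m c r x t : ℝ) : ℂ) =
      ∑ ε ∈ Fintype.piFinset (fun _ : ZMod m => ({-1, 0, 1} : Finset ℤ)),
        (∏ x, W m r x (ε x)) * ex (∑ x, (ε x : ℝ) * (c x - c (r - x))) t := by
    intro t
    rw [Complex.ofReal_prod]
    simp_rw [fac_eq]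
    rw [Finset.prod_univ_sum]
    refine sum_congr rfl fun ε _ => ?_
    rw [prod_mul_distrib]
    congr 1
    unfold ex
    rw [← Complex.exp_sum]
    congr 1
    push_cast
    rw [sum_mul, sum_mul]
  have hv0 : (∑ ε ∈ Fintype.piFinset (fun _ : ZMod m => ({-1, 0, 1} : Finset ℤ)),
      if (∑ x, (ε x : ℝ) * (c x - c (r - x))) + 0 = 0 then ∏ x, W m r x (ε x) else 0) = 1 := by
    rw [Finset.sum_eq_single (fun _ => 0)]
    · simp [W]
    · intro ε hε hne
      split_ifs with h1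
      · have h2 := (hiff ε (fun _ => 0)).1 (by simpa using h1)
        simp only [add_zero] at h2
        obtain ⟨x, hx⟩ : ∃ x, ε x ≠ 0 := by
          by_contra h3
          push Not at h3
          exact hne (funext h3)
        have hx2 : ε (r - x) ≠ 0 := by
          have := h2 x
          omega
        rcases lt_or_ge x.val (r - x).val with h4 | h4
        · apply prod_eq_zero (mem_univ (r - x))
          unfold W
          rw [if_neg hx2, if_neg]
          rw [sub_sub_cancel]; omega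
        · apply prod_eq_zero (mem_univ x)
          unfold W
          rw [if_neg hx, if_neg (by omega)]
      · rfl
    · intro h1
      exfalso
      apply h1
      rw [Fintype.mem_piFinset]
      intro _
      decide
  obtain ⟨f, hf, hft⟩ := trig_density _ _ _ (fun t => ∏ x, fac m c r x t) hH
    (fun t => prod_nonneg fun x _ => fac_nonneg m c r x t) Λ hv0
  refine ⟨f, hf, fun v hv => ?_⟩
  rw [hft _ hv]
  refine sum_congr rfl fun ε _ => ?_
  simp only [hiff]

lemma riesz_zero (m : ℕ) [NeZero m] (r : ZMod m) (v : ZMod m → ℤ) (x : ZMod m)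
    (hx : v x + v (r - x) ≠ 0) :
    (∑ ε ∈ Fintype.piFinset (fun _ : ZMod m => ({-1, 0, 1} : Finset ℤ)),
        if (∀ x, ε x - ε (r - x) + v x = 0) then ∏ x, W m r x (ε x) else (0 : ℂ)) = 0 := by
  refine sum_eq_zero fun ε _ => ?_
  rw [if_neg]
  intro h1
  have h2 := h1 x
  have h3 := h1 (r - x)
  rw [sub_sub_cancel] at h3
  omega

lemma riesz_pair (m : ℕ) [NeZero m] (i j : ZMod m) (hij : i.val < j.val) :
    (∑ ε ∈ Fintype.piFinset (fun _ : ZMod m => ({-1, 0, 1} : Finset ℤ)),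
        if (∀ x, ε x - ε (i + j - x) + ((if x = i then 1 else 0) - (if x = j then 1 else 0)) = 0)
          then ∏ x, W m (i + j) x (ε x) else (0 : ℂ)) = -(1 / 2) := by
  classical
  have hne : i ≠ j := by rintro rfl; exact lt_irrefl _ hij
  have e1 : i + j - i = j := by ring
  have e2 : i + j - j = i := by ring
  rw [Finset.sum_eq_single (fun x => if x = i then -1 else 0)]
  · rw [if_pos]
    · rw [prod_eq_single i]
      · unfold W; rw [e1]; simp [hij]
      · intro x _ hx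
        unfold W; simp [hx]
      · simp
    · intro x
      by_cases h1 : x = i
      · subst h1; rw [e1]; simp [hne, hne.symm]
      · by_cases h2 : x = j
        · subst h2; rw [e2]; simp [h1]
        · have h3 : i + j - x ≠ i := by
            intro h4
            apply h2
            calc x = i + j - (i + j - x) := by ring
              _ = j := by rw [h4]; ring
          simp [h1, h2, h3]
  · intro ε _ hεne
    rw [ite_eq_right_iff]
    intro h1
    by_contra h2
    have hz : ∀ x : ZMod m, ε x ≠ 0 → x.val < (i + j - x).val := by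
      intro x hx
      by_contra h3
      apply h2
      apply prod_eq_zero (mem_univ x)
      unfold W
      rw [if_neg hx, if_neg h3]
    apply hεne
    funext x
    by_cases hxi : x = i
    · subst hxi
      have h3 := h1 x
      rw [e1] at h3
      have h4 : ε j = 0 := by
        by_contra h5
        have := hz j h5
        rw [e2] at this
        omega
      simp only [h4, if_true, if_neg hne] at h3 ⊢
      omega
    · rw [if_neg hxi]
      by_contra hx
      have h3 := hz x hx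
      have h4 : ε (i + j - x) = 0 := by
        by_contra h5
        have := hz _ h5
        rw [sub_sub_cancel] at this
        omega
      have h5 := h1 x
      rw [h4, if_neg hxi] at h5
      by_cases hxj : x = j
      · subst hxj
        rw [e2] at h3
        omega
      · rw [if_neg hxj] at h5
        omega
  · intro h1
    exfalso
    apply h1
    rw [Fintype.mem_piFinset]
    intro x
    by_cases h2 : x = i
    · simp [h2]
    · simp [h2]


/-! ### Existence for prime `n + 1` -/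

lemma good_density (m : ℕ) [NeZero m] (c : ZMod m → ℝ)
    (hind : ∀ a : ZMod m → ℤ, ∑ x, (a x : ℝ) * c x = 0 → ∀ x, a x = 0) :
    ∃ f : ℝ → ℝ, IsDensity f ∧ (∀ i j, i ≠ j → ct f (c i - c j) = -(1 / (2 * m : ℝ))) ∧
      ∀ i j, ct f (c i + c j) = 0 := by
  classical
  set Λ : Finset ℝ := (univ.image fun p : ZMod m × ZMod m => c p.1 - c p.2) ∪
    (univ.image fun p : ZMod m × ZMod m => c p.1 + c p.2) with hΛ
  have hm : (m : ℝ) ≠ 0 := by exact_mod_cast (NeZero.ne m)
  choose f hf hft using fun r => riesz m c hind r Λ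
  have hfi : ∀ r, Integrable (f r) := fun r => (hf r).integrable
  set g : ℝ → ℝ := fun t => (1 / m : ℝ) * ∑ r, f r t with hg
  have hgi : Integrable g := (integrable_finsetSum _ fun r _ => hfi r).const_mul _
  have hgft : ∀ y, ft g y = (1 / m : ℂ) * ∑ r, ft (f r) y := by
    intro y
    unfold ft
    have : ∀ t, (g t : ℂ) * ex y t = (1 / m : ℂ) * ∑ r, (f r t : ℂ) * ex y t := by
      intro t
      rw [hg]
      push_cast
      rw [mul_assoc, sum_mul]
    simp_rw [this]
    rw [integral_const_mul, integral_finsetSum _ fun r _ => int_ex (hfi r) y]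
  have hgd : IsDensity g := by
    refine ⟨hgi.aestronglyMeasurable.aemeasurable, fun t => ?_, ?_⟩
    · rw [hg]
      exact mul_nonneg (by positivity) (sum_nonneg fun r _ => (hf r).nonneg t)
    · rw [hg, integral_const_mul, integral_finsetSum _ fun r _ => hfi r]
      simp only [(hf _).int]
      rw [sum_const, card_univ, ZMod.card]
      simp
  have key : ∀ i j : ZMod m, i.val < j.val → ct g (c i - c j) = -(1 / (2 * m : ℝ)) := by
    intro i j hij
    have hne : i ≠ j := by rintro rfl; exact lt_irrefl _ hij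
    have hv : ∑ x, (((if x = i then 1 else 0) - (if x = j then 1 else 0) : ℤ) : ℝ) * c x = c i - c j := by
      push_cast
      simp [sub_mul, sum_sub_distrib]
    have hmem : ∑ x, (((if x = i then 1 else 0) - (if x = j then 1 else 0) : ℤ) : ℝ) * c x ∈ Λ := by
      rw [hv, hΛ, mem_union]
      left
      exact mem_image.2 ⟨(i, j), mem_univ _, rfl⟩
    have h1 : ∀ r, ft (f r) (c i - c j) = if r = i + j then -(1 / 2) else 0 := by
      intro r
      have h2 := hft r (fun x => (if x = i then 1 else 0) - (if x = j then 1 else 0)) hmem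
      simp only [hv] at h2
      rw [h2]
      split_ifs with h3
      · subst h3
        exact riesz_pair m i j hij
      · refine riesz_zero m r (fun x => (if x = i then 1 else 0) - (if x = j then 1 else 0)) i ?_
        have h4 : r - i ≠ j := by
          intro h5; apply h3; rw [← h5]; ring
        simp only [if_true, if_neg hne, if_neg h4]
        split_ifs <;> norm_num
    rw [← ft_re hgi, hgft]
    simp only [h1]
    rw [sum_ite_eq']
    simp
  refine ⟨g, hgd, fun i j hij => ?_, fun i j => ?_⟩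
  · rcases lt_trichotomy i.val j.val with h1 | h1 | h1
    · exact key i j h1
    · exact absurd (ZMod.val_injective m h1) hij
    · rw [← ct_neg, neg_sub]
      exact key j i h1
  · have hv : ∑ x, (((if x = i then 1 else 0) + (if x = j then 1 else 0) : ℤ) : ℝ) * c x = c i + c j := by
      push_cast
      simp [add_mul, sum_add_distrib]
    have hmem : ∑ x, (((if x = i then 1 else 0) + (if x = j then 1 else 0) : ℤ) : ℝ) * c x ∈ Λ := by
      rw [hv, hΛ, mem_union]
      right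
      exact mem_image.2 ⟨(i, j), mem_univ _, rfl⟩
    have h1 : ∀ r, ft (f r) (c i + c j) = 0 := by
      intro r
      have h2 := hft r (fun x => (if x = i then 1 else 0) + (if x = j then 1 else 0)) hmem
      simp only [hv] at h2
      rw [h2]
      refine riesz_zero m r (fun x => (if x = i then 1 else 0) + (if x = j then 1 else 0)) i ?_
      simp only [if_true]
      split_ifs <;> norm_num
    rw [← ft_re hgi, hgft]
    simp [h1]

open Polynomial in
lemma cos_indep (m : ℕ) [NeZero m] (hp : (2 * m + 1).Prime) (a : ZMod m → ℤ)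
    (ha : ∑ x, (a x : ℝ) * (2 * Real.cos (2 * Real.pi * ((x.val + 1 : ℕ) : ℝ) / ((2 * m + 1 : ℕ) : ℝ))) = 0)
    (x : ZMod m) : a x = 0 := by
  classical
  set p : ℕ := 2 * m + 1 with hpdef
  have hp0 : p ≠ 0 := by omega
  set ζ : ℂ := Complex.exp (2 * Real.pi * Complex.I / p) with hζ
  have hprim : IsPrimitiveRoot ζ p := Complex.isPrimitiveRoot_exp p hp0
  have hζ0 : ζ ≠ 0 := Complex.exp_ne_zero _
  have hvl : ∀ y : ZMod m, y.val < m := fun y => ZMod.val_lt y
  set P : ℚ[X] := ∑ y : ZMod m, C (a y : ℚ) * (X ^ y.val + X ^ (p - 2 - y.val)) with hP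
  have hroot : aeval ζ P = 0 := by
    have h1 : ζ * aeval ζ P =
        ((∑ x, (a x : ℝ) * (2 * Real.cos (2 * Real.pi * ((x.val + 1 : ℕ) : ℝ) / (p : ℝ))) : ℝ) : ℂ) := by
      rw [hP, map_sum, mul_sum]
      push_cast
      refine sum_congr rfl fun y _ => ?_
      have hy := hvl y
      simp only [map_mul, map_add, map_pow, aeval_X, aeval_C]
      have e1 : ζ * ζ ^ y.val = Complex.exp ((2 * Real.pi * ((y.val : ℂ) + 1) / p) * Complex.I) := by
        rw [← pow_succ', hζ, ← Complex.exp_nat_mul]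
        congr 1
        push_cast; ring
      have e2 : ζ * ζ ^ (p - 2 - y.val) = Complex.exp (-(2 * Real.pi * ((y.val : ℂ) + 1) / p) * Complex.I) := by
        have h3 : ζ ^ p = 1 := hprim.pow_eq_one
        have h4 : ζ * ζ ^ (p - 2 - y.val) * (ζ * ζ ^ y.val) = 1 := by
          rw [← h3]
          have : p = (p - 2 - y.val) + y.val + 2 := by omega
          conv_rhs => rw [this]
          ring
        rw [e1] at h4
        rw [← mul_right_inj' (Complex.exp_ne_zero ((2 * Real.pi * ((y.val : ℂ) + 1) / p) * Complex.I)),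
          mul_comm, h4, ← Complex.exp_add]
        simp
      rw [mul_left_comm, mul_add, e1, e2, Complex.cos]
      have e3 : (algebraMap ℚ ℂ) (a y : ℚ) = (a y : ℂ) := by simp
      rw [e3]
      ring
    rw [ha] at h1
    simpa [hζ0] using h1
  have hdeg : P.natDegree ≤ p - 2 := by
    rw [hP]
    refine natDegree_sum_le_of_forall_le _ _ fun y _ => ?_
    have hy := hvl y
    refine (natDegree_C_mul_le _ _).trans ?_
    refine (natDegree_add_le _ _).trans ?_
    rw [natDegree_X_pow, natDegree_X_pow]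
    exact max_le (by omega) (by omega)
  have hPz : P = 0 := by
    by_contra hne
    have h1 := natDegree_le_natDegree (minpoly.degree_le_of_ne_zero ℚ ζ hne hroot)
    rw [← cyclotomic_eq_minpoly_rat hprim (by omega), natDegree_cyclotomic, Nat.totient_prime hp] at h1
    have h2 := hp.two_le
    omega
  have hc : P.coeff x.val = (a x : ℚ) := by
    rw [hP, finsetSum_coeff]
    have : ∀ y : ZMod m, (C (a y : ℚ) * (X ^ y.val + X ^ (p - 2 - y.val))).coeff x.val =
        if y = x then (a x : ℚ) else 0 := by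
      intro y
      have hy := hvl y
      have hx := hvl x
      rw [coeff_C_mul, coeff_add, coeff_X_pow, coeff_X_pow, if_neg (by omega : ¬ (x.val = p - 2 - y.val)),
        add_zero]
      by_cases h1 : y = x
      · subst h1; simp
      · rw [if_neg h1, if_neg, mul_zero]
        intro h2
        exact h1 (ZMod.val_injective m h2.symm)
    rw [sum_congr rfl fun y _ => this y]
    simp
  rw [hPz, coeff_zero] at hc
  exact_mod_cast hc.symm

lemma th_odd (m : ℕ) [NeZero m] (k : Fin (2 * m)) (i : ℕ) (hk : (k : ℕ) = 2 * i + 1) :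
    th (2 * m) k = 2 * Real.cos (2 * Real.pi * ((((i : ℕ) : ZMod m).val + 1 : ℕ) : ℝ) / ((2 * m + 1 : ℕ) : ℝ)) := by
  have hk2 := k.2
  rw [ZMod.val_natCast_of_lt (by omega)]
  unfold th h
  rw [hk]
  congr 2
  push_cast
  ring

lemma prime_case (n : ℕ) (hn : 2 ≤ n) (hp : (n + 1).Prime) :
    ∃ f : ℝ → ℝ, IsDensity f ∧ (avg n f).rank = 1 := by
  obtain ⟨m, rfl⟩ : ∃ m, n = 2 * m := by
    rcases hp.eq_two_or_odd' with h1 | h1
    · omega
    · obtain ⟨m, hm⟩ := h1
      exact ⟨m, by omega⟩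
  have : NeZero m := ⟨by omega⟩
  obtain ⟨f, hf, h1, h2⟩ := good_density m
    (fun x : ZMod m => 2 * Real.cos (2 * Real.pi * ((x.val + 1 : ℕ) : ℝ) / ((2 * m + 1 : ℕ) : ℝ)))
    (fun a ha x => cos_indep m hp a ha x)
  refine ⟨f, hf, ?_⟩
  rw [rank_iff _ (by omega) hf]
  refine const_of_ct _ (by omega) hf fun K L hKL => ?_
  have hK := K.2
  have hL := L.2
  have hinj : ∀ i j : ℕ, i < m → j < m → i ≠ j → ((i : ℕ) : ZMod m) ≠ ((j : ℕ) : ZMod m) := by
    intro i j hi hj hij h3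
    apply hij
    rw [← ZMod.val_natCast_of_lt hi, ← ZMod.val_natCast_of_lt hj, h3]
  have hKL' : (K : ℕ) ≠ L := fun h3 => hKL (Fin.ext h3)
  rcases Nat.even_or_odd' (K : ℕ) with ⟨k, hk | hk⟩ <;> rcases Nat.even_or_odd' (L : ℕ) with ⟨l, hl | hl⟩
  · -- even, even
    have r1 : ((Fin.rev K : Fin (2 * m)) : ℕ) = 2 * (m - 1 - k) + 1 := by rw [Fin.val_rev]; omega
    have r2 : ((Fin.rev L : Fin (2 * m)) : ℕ) = 2 * (m - 1 - l) + 1 := by rw [Fin.val_rev]; omega
    have e1 := th_odd m (Fin.rev K) _ r1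
    have e2 := th_odd m (Fin.rev L) _ r2
    rw [th_rev] at e1 e2
    have e3 : th (2 * m) K - th (2 * m) L = -th (2 * m) L - -th (2 * m) K := by ring
    rw [e3, e1, e2, h1 _ _ (hinj _ _ (by omega) (by omega) (by omega)), if_pos]
    · push_cast; rfl
    · rw [hk, hl, ← mul_add]; exact even_two_mul _
  · have r1 : ((Fin.rev K : Fin (2 * m)) : ℕ) = 2 * (m - 1 - k) + 1 := by rw [Fin.val_rev]; omega
    have e1 := th_odd m (Fin.rev K) _ r1
    have e2 := th_odd m L _ hl
    rw [th_rev] at e1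
    have e3 : th (2 * m) K - th (2 * m) L = -(-th (2 * m) K + th (2 * m) L) := by ring
    rw [e3, ct_neg, e1, e2, h2, if_neg]
    rw [hk, hl, Nat.not_even_iff_odd, ← add_assoc, ← mul_add]; exact odd_two_mul_add_one _
  · have r2 : ((Fin.rev L : Fin (2 * m)) : ℕ) = 2 * (m - 1 - l) + 1 := by rw [Fin.val_rev]; omega
    have e1 := th_odd m K _ hk
    have e2 := th_odd m (Fin.rev L) _ r2
    rw [th_rev] at e2
    have e3 : th (2 * m) K - th (2 * m) L = th (2 * m) K + -th (2 * m) L := by ring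
    rw [e3, e1, e2, h2, if_neg]
    have : (K : ℕ) + L = 2 * (k + l) + 1 := by omega
    rw [this, Nat.not_even_iff_odd]; exact odd_two_mul_add_one _
  · have e1 := th_odd m K _ hk
    have e2 := th_odd m L _ hl
    rw [e1, e2, h1 _ _ (hinj _ _ (by omega) (by omega) (by omega)), if_pos]
    · push_cast; rfl
    · have : (K : ℕ) + L = 2 * (k + l + 1) := by omega
      rw [this]; exact even_two_mul _

/-- **Main theorem.** -/
theorem result :
    (∀ n : ℕ, 2 ≤ n → ∀ f : ℝ → ℝ, IsDensity f → ((avg n f).rank = 1 ↔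
      ∀ k l : ℕ, 1 ≤ l → l < k → k ≤ n →
        ∫ s, f s * Real.cos ((2 * Real.cos (k * Real.pi / (n + 1)) -
            2 * Real.cos (l * Real.pi / (n + 1))) * s) =
          if Even (k - l) then -(1 / (n : ℝ)) else 0)) ∧
    (∀ n : ℕ, 6 ≤ n → (6 ∣ n + 1 ∨ 15 ∣ n + 1 ∨ 21 ∣ n + 1) →
      ∀ f : ℝ → ℝ, IsDensity f → 2 ≤ (avg n f).rank) ∧
    (∀ n : ℕ, 2 ≤ n → (n + 1).Prime → ∃ f : ℝ → ℝ, IsDensity f ∧ (avg n f).rank = 1) := by
  refine ⟨fun n hn f hf => ?_, fun n hn hd f hf => bad_all n hn hd hf, prime_case⟩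
  have hth : ∀ (k : ℕ) (hk : k - 1 < n), 1 ≤ k → th n ⟨k - 1, hk⟩ = 2 * Real.cos (k * Real.pi / (n + 1)) := by
    intro k hk h1
    rw [th_mk]
    unfold h
    have : k - 1 + 1 = k := by omega
    rw [this]
    push_cast
    rw [mul_div_assoc]
  rw [rank_iff n (by omega) hf]
  constructor
  · intro hc k l hl hkl hk
    have h1 := ct_all n hf hc ⟨k - 1, by omega⟩ ⟨l - 1, by omega⟩ (by simp; omega)
    rw [hth k _ (by omega), hth l _ hl] at h1
    unfold ct at h1
    rw [h1]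
    have e : Even ((k - 1) + (l - 1)) ↔ Even (k - l) := by
      rw [Nat.even_sub (by omega), Nat.even_add, Nat.even_sub (by omega), Nat.even_sub (by omega)]
      tauto
    simp only [e]
  · intro hc
    refine const_of_ct n (by omega) hf ?_
    have key : ∀ K L : Fin n, L < K →
        ct f (th n K - th n L) = if Even ((K : ℕ) + L) then -(1 / (n : ℝ)) else 0 := by
      intro K L hlt
      have hlt' : (L : ℕ) < K := hlt
      have hK := K.2
      have h1 := hc ((K : ℕ) + 1) ((L : ℕ) + 1) (by omega) (by omega) (by omega)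
      have h2 : th n K = 2 * Real.cos (((K : ℕ) + 1 : ℕ) * Real.pi / (n + 1)) :=
        hth ((K : ℕ) + 1) (by omega) (by omega)
      have h3 : th n L = 2 * Real.cos (((L : ℕ) + 1 : ℕ) * Real.pi / (n + 1)) :=
        hth ((L : ℕ) + 1) (by omega) (by omega)
      unfold ct
      rw [h2, h3, h1]
      have e : Even ((K : ℕ) + 1 - ((L : ℕ) + 1)) ↔ Even ((K : ℕ) + L) := by
        rw [Nat.even_sub (by omega), Nat.even_add_one, Nat.even_add_one, Nat.even_add]
        tauto
      simp only [e]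
    intro K L hKL
    rcases lt_or_gt_of_ne hKL with h1 | h1
    · rw [← ct_neg, neg_sub, key L K h1]
      have e : (L : ℕ) + K = K + L := by omega
      rw [e]
    · exact key K L h1

end Pool.Agent.Results.MP_261efc_co.AveragedMixing
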